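import Pool.Agent.W165.CE.FF

/-!
# Number of points of `y² = x³ + a x + b` over finite fields: twists and quadratic extensions
-/

set_option autoImplicit false
set_option linter.unusedSectionVars false

open Polynomial Finset

namespace Pool.Agent.Helper93.Bq

open Pool.Agent.H341R2.Sharp
open Pool.Agent.H82R3.EK (luc luc_eq card_points)
open W165.CE (wei aeval_wei wei_natDegree wei_monic T_luc A_two hasse)

/-- the number of affine points of `y² = x³ + a x + b` -/
noncomputable def cnt (k : Type) [CommRing k] (a b : k) : ℕ :=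
  Nat.card {x : k × k // x.2 ^ 2 = x.1 ^ 3 + a * x.1 + b}

lemma cnt_congr {k k' : Type} [CommRing k] [CommRing k'] (f : k →+* k') (hf : Function.Bijective f)
    (a b : k) : cnt k a b = cnt k' (f a) (f b) := by
  unfold cnt
  let e : k ≃+* k' := RingEquiv.ofBijective f hf
  refine Nat.card_congr
    { toFun := fun x => ⟨(f x.1.1, f x.1.2), by
        have h := congrArg f x.2
        simp only [map_pow, map_add, map_mul] at h
        exact h⟩
      invFun := fun x => ⟨(e.symm x.1.1, e.symm x.1.2), by
        have h := congrArg e.symm x.2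
        have ha : e.symm (f a) = a := e.symm_apply_apply a
        have hb : e.symm (f b) = b := e.symm_apply_apply b
        simp only [map_pow, map_add, map_mul, ha, hb] at h
        exact h⟩
      left_inv := fun x => by
        apply Subtype.ext
        exact Prod.ext (e.symm_apply_apply _) (e.symm_apply_apply _)
      right_inv := fun x => by
        apply Subtype.ext
        exact Prod.ext (e.apply_symm_apply _) (e.apply_symm_apply _) }

section
variable {k : Type} [Field k] [Fintype k] [DecidableEq k]

/-- the twist -/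
lemma cnt_twist (hk : ringChar k ≠ 2) (a b d : k) (hd : d ≠ 0) :
    (Fintype.card k : ℤ) - cnt k (d ^ 2 * a) (d ^ 3 * b) =
      quadraticChar k d * ((Fintype.card k : ℤ) - cnt k a b) := by
  unfold cnt
  rw [card_points hk (fun x => x ^ 3 + (d ^ 2 * a) * x + d ^ 3 * b),
    card_points hk (fun x => x ^ 3 + a * x + b)]
  have h1 : ∑ x : k, quadraticChar k (x ^ 3 + (d ^ 2 * a) * x + d ^ 3 * b) =
      ∑ x : k, quadraticChar k d * quadraticChar k (x ^ 3 + a * x + b) := by
    refine (Fintype.sum_equiv (Equiv.mulLeft₀ d hd) _ _ fun x => ?_).symm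
    have e : (Equiv.mulLeft₀ d hd) x = d * x := rfl
    rw [e]
    have e2 : (d * x) ^ 3 + d ^ 2 * a * (d * x) + d ^ 3 * b = d ^ 2 * (d * (x ^ 3 + a * x + b)) := by
      ring
    rw [e2, map_mul, quadraticChar_sq_one' hd, one_mul, map_mul]
  rw [h1, ← Finset.mul_sum]
  ring

end

/-- the quadratic extension -/
lemma cnt_quad {k k' : Type} [Field k] [Fintype k] [DecidableEq k] [Field k'] [Fintype k']
    (hk : ringChar k ≠ 2) (f : k →+* k') (hcard : Fintype.card k' = Fintype.card k ^ 2)
    (a b : k) (hD : 4 * a ^ 3 + 27 * b ^ 2 ≠ 0) :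
    (Fintype.card k' : ℤ) - cnt k' (f a) (f b) =
      ((Fintype.card k : ℤ) - cnt k a b) ^ 2 - 2 * Fintype.card k := by
  classical
  let _ : Algebra k k' := f.toAlgebra
  have hfr : Module.finrank k k' = 2 := by
    have h1 := Module.card_eq_pow_finrank (K := k) (V := k')
    rw [hcard] at h1
    exact (Nat.pow_right_injective Fintype.one_lt_card h1).symm
  have hk' : ringChar k' ≠ 2 := by
    rwa [← Algebra.ringChar_eq k k']
  have t1 := T_eq_sum (E := k) hk (wei a b)
  rw [Module.finrank_self] at t1
  have t2 := T_eq_sum (E := k') hk (wei a b)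
  rw [hfr] at t2
  have l2 := T_luc hk (wei_natDegree a b) (wei_monic a b) 1
  norm_num at l2
  rw [A_two hk a b hD] at l2
  unfold cnt
  rw [card_points hk' (fun x => x ^ 3 + f a * x + f b), card_points hk (fun x => x ^ 3 + a * x + b)]
  have e1 : ∑ x : k, quadraticChar k (x ^ 3 + a * x + b) = T (wei a b) 1 := by
    rw [t1]
    refine Finset.sum_congr rfl fun x _ => ?_
    rw [aeval_wei, Algebra.algebraMap_self, RingHom.id_apply, RingHom.id_apply]
  have e2 : ∑ x : k', quadraticChar k' (x ^ 3 + f a * x + f b) = T (wei a b) 2 := by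
    rw [t2]
    refine Finset.sum_congr rfl fun x _ => ?_
    rw [aeval_wei]
    rfl
  rw [e1, e2, l2]
  simp only [luc]
  ring

end Pool.Agent.Helper93.Bq
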