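import Pool.Agent.Helper93.Bq.Split
import Pool.Agent.Helper93.Bq.FF
import Pool.Agent.H82R3.EK.Euler

/-!
# Euler factors of `y² = x³ + a x + b` over number fields; the Euler product over a quadratic
# extension
-/

set_option autoImplicit false
set_option linter.unusedSectionVars false
set_option linter.style.haveILetI false

open NumberField IsDedekindDomain Filter

namespace Pool.Agent.Helper93.Bq

open Pool.Agent.H921R2.TatePole (below nm nm_eq nm_summable two_le_nm)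

section
variable {K : Type} [Field K] [NumberField K]

/-- `a_v = Nv - #{(x, y) mod v : y² = x³ + a x + b}` -/
noncomputable def ap (a b : 𝓞 K) (v : HeightOneSpectrum (𝓞 K)) : ℤ :=
  ((Ideal.absNorm v.asIdeal : ℕ) : ℤ) -
    cnt (𝓞 K ⧸ v.asIdeal) (Ideal.Quotient.mk v.asIdeal a) (Ideal.Quotient.mk v.asIdeal b)

/-- the Euler factor at a place of good reduction -/
noncomputable def ef (a b : 𝓞 K) (s : ℂ) (v : HeightOneSpectrum (𝓞 K)) : ℂ :=
  (1 - ((ap a b v : ℤ) : ℂ) * ((Ideal.absNorm v.asIdeal : ℕ) : ℂ) ^ (-s)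
    + ((Ideal.absNorm v.asIdeal : ℕ) : ℂ) ^ (1 - 2 * s))⁻¹

lemma ringChar_ne {v : HeightOneSpectrum (𝓞 K)} [hmax : v.asIdeal.IsMaximal]
    (h2 : (2 : 𝓞 K) ∉ v.asIdeal) :
    @ringChar (𝓞 K ⧸ v.asIdeal) (Ideal.Quotient.field v.asIdeal).toNonAssocSemiring ≠ 2 := by
  letI : Field (𝓞 K ⧸ v.asIdeal) := Ideal.Quotient.field v.asIdeal
  intro h
  apply h2
  have h3 : ((2 : ℕ) : 𝓞 K ⧸ v.asIdeal) = 0 := by
    rw [← h]
    exact ringChar.Nat.cast_ringChar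
  rw [← Ideal.Quotient.eq_zero_iff_mem]
  rw [map_ofNat]
  exact_mod_cast h3

lemma card_eq (v : HeightOneSpectrum (𝓞 K)) [Fintype (𝓞 K ⧸ v.asIdeal)] :
    Ideal.absNorm v.asIdeal = Fintype.card (𝓞 K ⧸ v.asIdeal) := by
  rw [Ideal.absNorm_apply, Submodule.cardQuot_apply, Nat.card_eq_fintype_card]

/-- Hasse's bound -/
lemma ap_bound {a b : 𝓞 K} (v : HeightOneSpectrum (𝓞 K)) (h2 : (2 : 𝓞 K) ∉ v.asIdeal) :
    |((ap a b v : ℤ) : ℝ)| ≤ 2 * Real.sqrt (nm v) := by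
  classical
  have hmax : v.asIdeal.IsMaximal := v.isPrime.isMaximal v.ne_bot
  letI : Field (𝓞 K ⧸ v.asIdeal) := Ideal.Quotient.field v.asIdeal
  have : Finite (𝓞 K ⧸ v.asIdeal) := Ideal.finiteQuotientOfFreeOfNeBot v.asIdeal v.ne_bot
  letI : Fintype (𝓞 K ⧸ v.asIdeal) := Fintype.ofFinite _
  have hE : ringChar (𝓞 K ⧸ v.asIdeal) ≠ 2 := ringChar_ne h2
  have h4 := W165.CE.hasse hE (Ideal.Quotient.mk v.asIdeal a) (Ideal.Quotient.mk v.asIdeal b)
  unfold ap nm cnt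
  rw [card_eq v]
  push_cast at h4 ⊢
  exact h4

/-- the part of the factor different from one -/
lemma ef_sub_bound {a b : 𝓞 K} (v : HeightOneSpectrum (𝓞 K)) (h2 : (2 : 𝓞 K) ∉ v.asIdeal)
    (s : ℂ) (hs : 3 / 2 < s.re)
    (hsmall : (nm v : ℝ) ^ (-(s.re - 1 / 2)) ≤ 1 / 6) :
    ‖ef a b s v - 1‖ ≤ 6 * (nm v : ℝ) ^ (-(s.re - 1 / 2)) := by
  have hn0 : (0 : ℝ) < nm v := by
    have := two_le_nm v
    exact_mod_cast (by omega : 0 < nm v)
  have hn1 : (1 : ℝ) ≤ nm v := by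
    have := two_le_nm v
    exact_mod_cast (by omega : 1 ≤ nm v)
  have hb := ap_bound (a := a) (b := b) v h2
  unfold ef
  set t : ℤ := ap a b v with ht
  set w : ℝ := (nm v : ℝ) ^ (-(s.re - 1 / 2)) with hw
  have e1 : ‖((Ideal.absNorm v.asIdeal : ℕ) : ℂ) ^ (-s)‖ = (nm v : ℝ) ^ (-s.re) := by
    have := Complex.norm_natCast_cpow_of_pos (n := nm v) (by exact_mod_cast hn0) (-s)
    rw [Complex.neg_re] at this
    exact this
  have e2 : ‖((Ideal.absNorm v.asIdeal : ℕ) : ℂ) ^ (1 - 2 * s)‖ = (nm v : ℝ) ^ (1 - 2 * s.re) := by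
    have := Complex.norm_natCast_cpow_of_pos (n := nm v) (by exact_mod_cast hn0) (1 - 2 * s)
    have h2 : (1 - 2 * s).re = 1 - 2 * s.re := by simp
    rw [h2] at this
    exact this
  set u : ℂ := -((t : ℂ) * ((Ideal.absNorm v.asIdeal : ℕ) : ℂ) ^ (-s)) +
    ((Ideal.absNorm v.asIdeal : ℕ) : ℂ) ^ (1 - 2 * s) with hu
  have hu1 : ‖u‖ ≤ 3 * w := by
    have h1 : ‖(t : ℂ) * ((Ideal.absNorm v.asIdeal : ℕ) : ℂ) ^ (-s)‖ ≤ 2 * w := by
      rw [norm_mul, e1, Complex.norm_intCast]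
      calc |(t : ℝ)| * (nm v : ℝ) ^ (-s.re) ≤ (2 * Real.sqrt (nm v)) * (nm v : ℝ) ^ (-s.re) :=
            mul_le_mul_of_nonneg_right hb (by positivity)
        _ = 2 * w := by
            rw [hw, Real.sqrt_eq_rpow, mul_assoc, ← Real.rpow_add hn0]
            congr 2
            ring
    have h2 : ‖((Ideal.absNorm v.asIdeal : ℕ) : ℂ) ^ (1 - 2 * s)‖ ≤ w := by
      rw [e2, hw]
      apply Real.rpow_le_rpow_of_exponent_le hn1
      linarith
    calc ‖u‖ ≤ ‖-((t : ℂ) * ((Ideal.absNorm v.asIdeal : ℕ) : ℂ) ^ (-s))‖ + _ := norm_add_le _ _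
      _ ≤ 2 * w + w := add_le_add (by rwa [norm_neg]) h2
      _ = 3 * w := by ring
  have e3 : (1 - (t : ℂ) * ((Ideal.absNorm v.asIdeal : ℕ) : ℂ) ^ (-s) +
    ((Ideal.absNorm v.asIdeal : ℕ) : ℂ) ^ (1 - 2 * s)) = 1 + u := by rw [hu]; ring
  rw [e3]
  have hu2 : ‖u‖ ≤ 1 / 2 := by linarith
  have h3 : 1 / 2 ≤ ‖1 + u‖ := by
    have := norm_sub_norm_le (1 : ℂ) (-u)
    rw [sub_neg_eq_add, norm_neg, norm_one] at this
    linarith
  have hne : 1 + u ≠ 0 := by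
    intro h
    rw [h, norm_zero] at h3
    linarith
  have e4 : (1 + u)⁻¹ - 1 = -u / (1 + u) := by field_simp; ring
  rw [e4, norm_div, norm_neg, div_le_iff₀ (by linarith)]
  nlinarith [norm_nonneg u]

/-- the places not dividing `B` -/
abbrev Good (B : 𝓞 K) : Type := {v : HeightOneSpectrum (𝓞 K) // B ∉ v.asIdeal}

lemma not_mem_of_dvd {B c : 𝓞 K} (h : c ∣ B) {v : HeightOneSpectrum (𝓞 K)} (hv : B ∉ v.asIdeal) :
    c ∉ v.asIdeal := by
  obtain ⟨k, rfl⟩ := h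
  exact fun hc => hv (v.asIdeal.mul_mem_right _ hc)

lemma multipliable_ef {a b B : 𝓞 K} (h2 : ∀ v : HeightOneSpectrum (𝓞 K), B ∉ v.asIdeal →
    (2 : 𝓞 K) ∉ v.asIdeal) (s : ℂ) (hs : 3 / 2 < s.re) :
    Multipliable (fun v : Good B => ef a b s v.1) := by
  have hsum := (nm_summable (K := K) (x := s.re - 1 / 2) (by linarith)).subtype
    {v : HeightOneSpectrum (𝓞 K) | B ∉ v.asIdeal}
  have h1 : Summable (fun v : Good B => ‖ef a b s v.1 - 1‖) := by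
    refine Summable.of_norm_bounded_eventually (hsum.mul_left 6) ?_
    have h6 := hsum.tendsto_cofinite_zero.eventually (Iio_mem_nhds (by norm_num : (0 : ℝ) < 1 / 6))
    filter_upwards [h6] with v hv
    rw [norm_norm]
    exact ef_sub_bound v.1 (h2 v.1 v.2) s hs (le_of_lt hv)
  have h3 := multipliable_one_add_of_summable h1
  refine h3.congr (fun v => ?_)
  ring

/-- the Euler product of `y² = x³ + a x + b` over the places not dividing `B` is entire and not zero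
at `1` -/
def HasL (a b B : 𝓞 K) : Prop :=
  ∃ L : ℂ → ℂ, Differentiable ℂ L ∧ L 1 ≠ 0 ∧ ∀ s : ℂ, 3 / 2 < s.re →
    HasProd (fun v : Good B => ef a b s v.1) (L s)

end

section
variable {L F : Type} [Field L] [NumberField L] [Field F] [NumberField F] [Algebra L F]
  {d : 𝓞 L} {r : 𝓞 F}

/-- the map of the residue fields -/
lemma res_map (v : HeightOneSpectrum (𝓞 L)) (w : HeightOneSpectrum (𝓞 F))
    (hw : w.under (𝓞 L) = v) : ∃ f : 𝓞 L ⧸ v.asIdeal →+* 𝓞 F ⧸ w.asIdeal,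
      Function.Injective f ∧ ∀ x : 𝓞 L, f (Ideal.Quotient.mk _ x) =
        Ideal.Quotient.mk _ (algebraMap (𝓞 L) (𝓞 F) x) := by
  refine ⟨Ideal.quotientMap w.asIdeal (algebraMap (𝓞 L) (𝓞 F)) (by
        intro x hx
        exact (mem_under v w hw x).2 hx), ?_, fun x => rfl⟩
  apply Ideal.quotientMap_injective'
  intro x hx
  exact (mem_under v w hw x).1 hx

lemma ap_same (a b : 𝓞 L) (v : HeightOneSpectrum (𝓞 L)) (w : HeightOneSpectrum (𝓞 F))
    (hw : w.under (𝓞 L) = v) (hn : Ideal.absNorm w.asIdeal = Ideal.absNorm v.asIdeal) :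
    ap (algebraMap (𝓞 L) (𝓞 F) a) (algebraMap (𝓞 L) (𝓞 F) b) w = ap a b v := by
  obtain ⟨f, hf, hfm⟩ := res_map v w hw
  have hfin : Finite (𝓞 F ⧸ w.asIdeal) := Ideal.finiteQuotientOfFreeOfNeBot w.asIdeal w.ne_bot
  have hb : Function.Bijective f := by
    rw [Nat.bijective_iff_injective_and_card]
    refine ⟨hf, ?_⟩
    have h3 := hn
    rw [Ideal.absNorm_apply, Submodule.cardQuot_apply, Ideal.absNorm_apply,
      Submodule.cardQuot_apply] at h3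
    exact h3.symm
  unfold ap
  rw [hn, cnt_congr f hb, hfm, hfm]

lemma ap_sq (a b : 𝓞 L) (v : HeightOneSpectrum (𝓞 L)) (w : HeightOneSpectrum (𝓞 F))
    (hw : w.under (𝓞 L) = v) (hn : Ideal.absNorm w.asIdeal = Ideal.absNorm v.asIdeal ^ 2)
    (h2 : (2 : 𝓞 L) ∉ v.asIdeal) (hD : 4 * a ^ 3 + 27 * b ^ 2 ∉ v.asIdeal) :
    ap (algebraMap (𝓞 L) (𝓞 F) a) (algebraMap (𝓞 L) (𝓞 F) b) w =
      (ap a b v) ^ 2 - 2 * (Ideal.absNorm v.asIdeal : ℕ) := by
  classical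
  obtain ⟨f, hf, hfm⟩ := res_map v w hw
  have hmax : v.asIdeal.IsMaximal := v.isPrime.isMaximal v.ne_bot
  have hmax' : w.asIdeal.IsMaximal := w.isPrime.isMaximal w.ne_bot
  letI : Field (𝓞 L ⧸ v.asIdeal) := Ideal.Quotient.field v.asIdeal
  letI : Field (𝓞 F ⧸ w.asIdeal) := Ideal.Quotient.field w.asIdeal
  have : Finite (𝓞 L ⧸ v.asIdeal) := Ideal.finiteQuotientOfFreeOfNeBot v.asIdeal v.ne_bot
  have : Finite (𝓞 F ⧸ w.asIdeal) := Ideal.finiteQuotientOfFreeOfNeBot w.asIdeal w.ne_bot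
  letI : Fintype (𝓞 L ⧸ v.asIdeal) := Fintype.ofFinite _
  letI : Fintype (𝓞 F ⧸ w.asIdeal) := Fintype.ofFinite _
  have hE : ringChar (𝓞 L ⧸ v.asIdeal) ≠ 2 := ringChar_ne h2
  have hn' := hn
  rw [card_eq v, card_eq w] at hn'
  have hD' : 4 * (Ideal.Quotient.mk v.asIdeal a) ^ 3 + 27 * (Ideal.Quotient.mk v.asIdeal b) ^ 2 ≠ 0 := by
    intro h
    apply hD
    rw [← Ideal.Quotient.eq_zero_iff_mem, ← h]
    simp only [map_add, map_mul, map_pow, map_ofNat]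
  have key := cnt_quad hE f hn' (Ideal.Quotient.mk v.asIdeal a) (Ideal.Quotient.mk v.asIdeal b) hD'
  unfold ap
  rw [← hfm, ← hfm, card_eq w, card_eq v]
  exact key

lemma ap_twist (a b : 𝓞 L) (v : HeightOneSpectrum (𝓞 L)) (h2 : (2 : 𝓞 L) ∉ v.asIdeal)
    (hd : d ∉ v.asIdeal) :
    ((∃ c : 𝓞 L, c ^ 2 - d ∈ v.asIdeal) → ap (d ^ 2 * a) (d ^ 3 * b) v = ap a b v) ∧
    ((¬ ∃ c : 𝓞 L, c ^ 2 - d ∈ v.asIdeal) → ap (d ^ 2 * a) (d ^ 3 * b) v = - ap a b v) := by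
  classical
  have hmax : v.asIdeal.IsMaximal := v.isPrime.isMaximal v.ne_bot
  letI : Field (𝓞 L ⧸ v.asIdeal) := Ideal.Quotient.field v.asIdeal
  have : Finite (𝓞 L ⧸ v.asIdeal) := Ideal.finiteQuotientOfFreeOfNeBot v.asIdeal v.ne_bot
  letI : Fintype (𝓞 L ⧸ v.asIdeal) := Fintype.ofFinite _
  have hE : ringChar (𝓞 L ⧸ v.asIdeal) ≠ 2 := ringChar_ne h2
  have hd' : Ideal.Quotient.mk v.asIdeal d ≠ 0 := by
    rwa [Ne, Ideal.Quotient.eq_zero_iff_mem]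
  have key := cnt_twist hE (Ideal.Quotient.mk v.asIdeal a) (Ideal.Quotient.mk v.asIdeal b)
    (Ideal.Quotient.mk v.asIdeal d) hd'
  have e : ap (d ^ 2 * a) (d ^ 3 * b) v = quadraticChar (𝓞 L ⧸ v.asIdeal) (Ideal.Quotient.mk v.asIdeal d) *
      ap a b v := by
    unfold ap
    rw [card_eq v, map_mul, map_mul, map_pow, map_pow]
    exact key
  have hsq : IsSquare (Ideal.Quotient.mk v.asIdeal d) ↔ ∃ c : 𝓞 L, c ^ 2 - d ∈ v.asIdeal := by
    constructor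
    · rintro ⟨y, hy⟩
      obtain ⟨c, rfl⟩ := Ideal.Quotient.mk_surjective y
      refine ⟨c, ?_⟩
      rw [← Ideal.Quotient.eq_zero_iff_mem, map_sub, map_pow, hy]
      ring
    · rintro ⟨c, hc⟩
      refine ⟨Ideal.Quotient.mk v.asIdeal c, ?_⟩
      rw [← Ideal.Quotient.eq_zero_iff_mem, map_sub, map_pow, sub_eq_zero] at hc
      rw [← hc]
      ring
  constructor
  · intro h
    rw [e, (quadraticChar_one_iff_isSquare hd').2 (hsq.2 h), one_mul]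
  · intro h
    have h3 : quadraticChar (𝓞 L ⧸ v.asIdeal) (Ideal.Quotient.mk v.asIdeal d) = -1 :=
      quadraticChar_neg_one_iff_not_isSquare.2 fun h4 => h (hsq.1 h4)
    rw [e, h3, neg_one_mul]

lemma cpow_one_sub (n : ℕ) (hn : n ≠ 0) (s : ℂ) : (n : ℂ) ^ (1 - 2 * s) = n * ((n : ℂ) ^ (-s)) ^ 2 :=
  Pool.Agent.H82R3.EK.prime_cpow n hn s

/-- the product over the places above `v` -/
lemma fiber_ef (h : Quad (L := L) (F := F) d r) (a b : 𝓞 L) (v : HeightOneSpectrum (𝓞 L))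
    (h2 : (2 : 𝓞 L) ∉ v.asIdeal) (hd : d ∉ v.asIdeal) (hD : 4 * a ^ 3 + 27 * b ^ 2 ∉ v.asIdeal)
    (s : ℂ) (S : Finset (HeightOneSpectrum (𝓞 F))) (hS : ∀ w, w ∈ S ↔ w.under (𝓞 L) = v) :
    ∏ w ∈ S, ef (algebraMap (𝓞 L) (𝓞 F) a) (algebraMap (𝓞 L) (𝓞 F) b) s w =
      ef a b s v * ef (d ^ 2 * a) (d ^ 3 * b) s v := by
  classical
  have hn0 : Ideal.absNorm v.asIdeal ≠ 0 := by
    have := two_le_nm v
    unfold nm at this
    omega
  by_cases hc : ∃ c : 𝓞 L, c ^ 2 - d ∈ v.asIdeal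
  · obtain ⟨c, hc'⟩ := hc
    obtain ⟨w, w', hne, hall, hn, hn'⟩ := h.split v h2 hd hc'
    have hSe : S = {w, w'} := by
      ext u
      rw [hS, hall, Finset.mem_insert, Finset.mem_singleton]
    rw [hSe, Finset.prod_pair hne]
    unfold ef
    rw [ap_same a b v w ((hall w).2 (Or.inl rfl)) hn, ap_same a b v w' ((hall w').2 (Or.inr rfl)) hn',
      hn, hn', (ap_twist a b v h2 hd).1 ⟨c, hc'⟩]
  · obtain ⟨w, hall, hn⟩ := h.inert v hc
    have hSe : S = {w} := by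
      ext u
      rw [hS, hall, Finset.mem_singleton]
    rw [hSe, Finset.prod_singleton]
    unfold ef
    rw [ap_sq a b v w ((hall w).2 rfl) hn h2 hD, (ap_twist a b v h2 hd).2 hc, hn, ← mul_inv]
    congr 1
    have e1 : (((Ideal.absNorm v.asIdeal ^ 2 : ℕ) : ℕ) : ℂ) ^ (-s) =
        (((Ideal.absNorm v.asIdeal : ℕ) : ℂ) ^ (-s)) ^ 2 := by
      push_cast
      exact Pool.Agent.H82R3.EK.pow_cpow _ _ _
    have e2 : (((Ideal.absNorm v.asIdeal ^ 2 : ℕ) : ℕ) : ℂ) ^ (1 - 2 * s) =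
        (((Ideal.absNorm v.asIdeal : ℕ) : ℂ) ^ (1 - 2 * s)) ^ 2 := by
      push_cast
      exact Pool.Agent.H82R3.EK.pow_cpow _ _ _
    rw [e1, e2, cpow_one_sub _ hn0]
    push_cast
    ring

/-- **The Euler product over a quadratic extension.** -/
theorem hasProd_quad (h : Quad (L := L) (F := F) d r) {a b B : 𝓞 L}
    (hB : ∀ v : HeightOneSpectrum (𝓞 L), B ∉ v.asIdeal → (2 : 𝓞 L) ∉ v.asIdeal ∧ d ∉ v.asIdeal ∧
      4 * a ^ 3 + 27 * b ^ 2 ∉ v.asIdeal) {s : ℂ} (hs : 3 / 2 < s.re) {x y : ℂ}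
    (hx : HasProd (fun v : Good B => ef a b s v.1) x)
    (hy : HasProd (fun v : Good B => ef (d ^ 2 * a) (d ^ 3 * b) s v.1) y) :
    HasProd (fun w : Good (algebraMap (𝓞 L) (𝓞 F) B) =>
      ef (algebraMap (𝓞 L) (𝓞 F) a) (algebraMap (𝓞 L) (𝓞 F) b) s w.1) (x * y) := by
  classical
  let π : Good (algebraMap (𝓞 L) (𝓞 F) B) → Good B := fun w => ⟨w.1.under (𝓞 L), w.2⟩
  rw [← (Equiv.sigmaFiberEquiv π).hasProd_iff]
  have h2' : ∀ w : HeightOneSpectrum (𝓞 F), algebraMap (𝓞 L) (𝓞 F) B ∉ w.asIdeal →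
      (2 : 𝓞 F) ∉ w.asIdeal := by
    intro w hw h3
    refine (hB (w.under (𝓞 L)) (fun h4 => hw h4)).1 ?_
    rw [← mem_under _ w rfl, map_ofNat]
    exact h3
  refine HasProd.sigma_of_hasProd (hx.mul hy) (fun v => ?_)
    ((Equiv.sigmaFiberEquiv π).multipliable_iff.2 (multipliable_ef h2' s hs))
  have hfin : {w : HeightOneSpectrum (𝓞 F) | w.under (𝓞 L) = v.1}.Finite := by
    have hmax : v.1.asIdeal.IsMaximal := v.1.isPrime.isMaximal v.1.ne_bot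
    refine Set.Finite.of_finite_image (f := fun w => w.asIdeal) ?_
      (fun _ _ _ _ e => HeightOneSpectrum.ext e)
    refine ((IsDedekindDomain.primesOverFinset v.1.asIdeal (𝓞 F)).finite_toSet).subset ?_
    rintro _ ⟨w, hw, rfl⟩
    exact (mem_pof v.1 w).2 hw
  have hfin' : Finite {w : Good (algebraMap (𝓞 L) (𝓞 F) B) // π w = v} := by
    have : Finite {w : HeightOneSpectrum (𝓞 F) | w.under (𝓞 L) = v.1} := hfin
    refine Finite.of_injective (β := {w : HeightOneSpectrum (𝓞 F) | w.under (𝓞 L) = v.1})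
      (fun w => ⟨w.1.1, congrArg Subtype.val w.2⟩) ?_
    intro w w' e
    apply Subtype.ext
    apply Subtype.ext
    have h5 := congrArg Subtype.val e
    exact h5
  have : Fintype {w : Good (algebraMap (𝓞 L) (𝓞 F) B) // π w = v} := Fintype.ofFinite _
  have hkey := fiber_ef h a b v.1 (hB v.1 v.2).1 (hB v.1 v.2).2.1 (hB v.1 v.2).2.2 s
    ((Finset.univ : Finset {w : Good (algebraMap (𝓞 L) (𝓞 F) B) // π w = v}).image
      (fun w => w.1.1)) (by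
      intro w
      rw [Finset.mem_image]
      constructor
      · rintro ⟨u, -, rfl⟩
        exact congrArg Subtype.val u.2
      · intro hw
        have hB : algebraMap (𝓞 L) (𝓞 F) B ∉ w.asIdeal := by
          rw [mem_under v.1 w hw]
          exact v.2
        exact ⟨⟨⟨w, hB⟩, Subtype.ext hw⟩, Finset.mem_univ _, rfl⟩)
  rw [← hkey, Finset.prod_image (fun u _ u' _ e => Subtype.ext (Subtype.ext e))]
  exact hasProd_fintype _

theorem HasL.quad (h : Quad (L := L) (F := F) d r) {a b B : 𝓞 L}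
    (hB : ∀ v : HeightOneSpectrum (𝓞 L), B ∉ v.asIdeal → (2 : 𝓞 L) ∉ v.asIdeal ∧ d ∉ v.asIdeal ∧
      4 * a ^ 3 + 27 * b ^ 2 ∉ v.asIdeal) (h1 : HasL a b B) (h2 : HasL (d ^ 2 * a) (d ^ 3 * b) B) :
    HasL (algebraMap (𝓞 L) (𝓞 F) a) (algebraMap (𝓞 L) (𝓞 F) b) (algebraMap (𝓞 L) (𝓞 F) B) := by
  obtain ⟨L1, a1, a2, a3⟩ := h1
  obtain ⟨L2, b1, b2, b3⟩ := h2
  exact ⟨fun s => L1 s * L2 s, a1.mul b1, mul_ne_zero a2 b2, fun s hs =>
    hasProd_quad h hB hs (a3 s hs) (b3 s hs)⟩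

end

end Pool.Agent.Helper93.Bq
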