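import Pool.Agent.Helper93.Bq.Tower
import Pool.Agent.Y699.Crit
import Pool.Agent.Y699.Mn

/-!
# The `L`-function of `y² = x³ - D² x` over `ℚ(i)` without the factors at finitely many places
-/

set_option autoImplicit false
set_option linter.unusedSectionVars false

open NumberField IsDedekindDomain

namespace Pool.Agent.Helper93.Bq

open H385 (ZI)

section
variable {K : Type} [Field K] [NumberField K]

lemma finite_mem {B : 𝓞 K} (hB : B ≠ 0) : {v : HeightOneSpectrum (𝓞 K) | B ∈ v.asIdeal}.Finite := by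
  have h1 : Ideal.span {B} ≠ ⊥ := by
    rwa [Ne, Ideal.span_singleton_eq_bot]
  refine (Ideal.finite_factors h1).subset ?_
  intro v hv
  show v.asIdeal ∣ _
  rw [Ideal.dvd_iff_le, Ideal.span_singleton_le_iff_mem]
  exact hv

/-- removing finitely many Euler factors -/
theorem HasL.remove {a b B : 𝓞 K} (hB : B ≠ 0) (g : HeightOneSpectrum (𝓞 K) → ℂ → ℂ)
    (P : HeightOneSpectrum (𝓞 K) → ℂ → ℂ) (hP : ∀ v, Differentiable ℂ (P v))
    (hP0 : ∀ v s, 1 / 2 < s.re → P v s ≠ 0) (hgP : ∀ v s, g v s = (P v s)⁻¹)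
    (hg : ∀ v : HeightOneSpectrum (𝓞 K), B ∉ v.asIdeal → ∀ s, g v s = ef a b s v)
    {L : ℂ → ℂ} (h1 : Differentiable ℂ L) (h2 : L 1 ≠ 0)
    (h3 : ∀ s : ℂ, 3 / 2 < s.re → HasProd (fun v => g v s) (L s)) : HasL a b B := by
  classical
  set S := (finite_mem hB).toFinset with hS
  have hmem : ∀ v, v ∈ S ↔ B ∈ v.asIdeal := fun v => by
    rw [hS, Set.Finite.mem_toFinset]; rfl
  refine ⟨fun s => L s * ∏ v ∈ S, P v s, h1.mul ?_, ?_, fun s hs => ?_⟩
  · apply Differentiable.fun_finsetProd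
    intro v _
    exact hP v
  · refine mul_ne_zero h2 (Finset.prod_ne_zero_iff.2 fun v _ => hP0 v 1 (by norm_num))
  · have h4 : HasProd (fun v => if v ∈ S then P v s else 1) (∏ v ∈ S, P v s) := by
      have h5 : ∏ v ∈ S, P v s = ∏ v ∈ S, (if v ∈ S then P v s else 1) :=
        Finset.prod_congr rfl fun v hv => by rw [if_pos hv]
      rw [h5]
      apply hasProd_prod_of_ne_finset_one
      intro v hv
      rw [if_neg hv]
    have h5 := (h3 s hs).mul h4
    have h6 : HasProd ((fun v : HeightOneSpectrum (𝓞 K) => g v s * (if v ∈ S then P v s else 1)) ∘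
        (Subtype.val : Good B → HeightOneSpectrum (𝓞 K))) (L s * ∏ v ∈ S, P v s) := by
      rw [Function.Injective.hasProd_iff Subtype.val_injective]
      · exact h5
      · intro v hv
        have hvS : v ∈ S := by
          rw [hmem]
          by_contra hcon
          exact hv ⟨⟨v, hcon⟩, rfl⟩
        rw [if_pos hvS, hgP, inv_mul_cancel₀ (hP0 v s (by linarith))]
    refine h6.congr_fun fun v => ?_
    have hvS : v.1 ∉ S := fun h => v.2 ((hmem _).1 h)
    rw [Function.comp_apply, if_neg hvS, mul_one, hg v.1 v.2]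

open Pool.Agent.Y699 in
/-- the `L`-function over `ℚ(i)` -/
theorem hasL_gauss {D : ZI} (h : Pool.Agent.Y699.Good D) (e : ZI ≃+* 𝓞 K) {B : 𝓞 K} (hB : B ≠ 0)
    (h2 : ∀ v : HeightOneSpectrum (𝓞 K), B ∉ v.asIdeal → (2 : 𝓞 K) ∉ v.asIdeal)
    (hD : ∀ v : HeightOneSpectrum (𝓞 K), B ∉ v.asIdeal → e D ∉ v.asIdeal) :
    HasL (-(e D) ^ 2) 0 B := by
  classical
  have hp := fam_PF h.ps.ne
  have hmin : ∀ v, MinAt (Pool.Agent.Y699.crv (algebraMap (𝓞 K) K (e (DD (fam D) Finset.univ)))) v
      (Pool.Agent.Y699.crv (e D)) := by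
    intro v
    rw [h.ps.DD]
    exact crv_min e h.ps v
  have h3 : ∀ s : ℂ, 3 / 2 < s.re → HasProd (fun v => lf (Pool.Agent.Y699.crv (e D)) v s)
      (LE hp Finset.univ s) := fun s hs => LE_hasProd hp Finset.univ e hs _ hmin
  refine HasL.remove hB (fun v s => lf (Pool.Agent.Y699.crv (e D)) v s)
    (fun v s => (1 - XX hp Finset.univ (pg e v) * Pool.Agent.H304R3.HK.tc (pg e v) *
        ((Ideal.absNorm v.asIdeal : ℕ) : ℂ) ^ (-s)) *
      (1 - XX hp Finset.univ (pg e v) * Pool.Agent.H304R3.HK.tc (star (pg e v)) *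
        ((Ideal.absNorm v.asIdeal : ℕ) : ℂ) ^ (-s))) ?_ ?_ ?_ ?_ (LE_diff hp _)
    (LE_one hp _ (LH_ne hp (good_nonempty h) (wt_sum h.ps h.five) (ker_of_good h))) h3
  · intro v
    have hN : ((Ideal.absNorm v.asIdeal : ℕ) : ℂ) ≠ 0 := by
      have := Pool.Agent.H921R2.TatePole.nm_ne_zero v
      exact_mod_cast this
    have hd : Differentiable ℂ (fun s : ℂ => ((Ideal.absNorm v.asIdeal : ℕ) : ℂ) ^ (-s)) := by
      intro s
      exact (differentiableAt_id.neg).const_cpow (Or.inl hN)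
    exact ((differentiable_const _).sub ((differentiable_const _).mul hd)).mul
      ((differentiable_const _).sub ((differentiable_const _).mul hd))
  · intro v s hs
    have hlt : (Pool.Agent.H921R2.TatePole.nm v : ℝ) ^ (-(s.re - 1 / 2)) < 1 := by
      apply Real.rpow_lt_one_of_one_lt_of_neg
      · have := Pool.Agent.H921R2.TatePole.two_le_nm v
        exact_mod_cast (by omega : 1 < Pool.Agent.H921R2.TatePole.nm v)
      · linarith
    have key : ∀ t : ℂ, ‖t‖ ≤ (Pool.Agent.H921R2.TatePole.nm v : ℝ) ^ (-(s.re - 1 / 2)) →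
        1 - t ≠ 0 := by
      intro t ht h0
      have : t = 1 := by linear_combination -h0
      rw [this, norm_one] at ht
      linarith
    refine mul_ne_zero (key _ (term_bound hp _ e s v)) (key _ ?_)
    have h4 := term_bound hp Finset.univ e s v
    refine le_trans (le_of_eq ?_) h4
    rw [norm_mul, norm_mul, norm_mul, norm_mul]
    have h5 : ‖Pool.Agent.H304R3.HK.tc (star (pg e v))‖ = ‖Pool.Agent.H304R3.HK.tc (pg e v)‖ := by
      rw [Pool.Agent.W164.RC.tc_star, Complex.norm_conj]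
    rw [h5]
  · intro v s
    show lf _ v s = _
    rw [lf_eq hp Finset.univ e s v (hmin v), mul_inv]
    rfl
  · intro v hv s
    show lf _ v s = _
    have hΔ : (Pool.Agent.Y699.crv (e D)).Δ ∉ v.asIdeal := by
      rw [crv_Δ]
      intro h4
      rcases v.isPrime.mem_or_mem h4 with h5 | h5
      · have e64 : (64 : 𝓞 K) = 2 ^ 6 := by norm_num
        rw [e64] at h5
        exact h2 v hv (v.isPrime.mem_of_pow_mem _ h5)
      · exact hD v hv (v.isPrime.mem_of_pow_mem _ h5)
    unfold lf ef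
    rw [if_neg hΔ]
    have hn0 : Ideal.absNorm v.asIdeal ≠ 0 := Pool.Agent.H921R2.TatePole.nm_ne_zero v
    have hap : ((ap (-(e D) ^ 2) 0 v : ℤ) : ℂ) = (Ideal.absNorm v.asIdeal : ℂ) -
        (Mdl.aff ((Pool.Agent.Y699.crv (e D)).map (Ideal.Quotient.mk v.asIdeal)) : ℂ) := by
      unfold ap
      push_cast
      congr 1
      unfold cnt Mdl.aff
      congr 1
      apply Nat.card_congr
      refine Equiv.subtypeEquivRight fun x => ?_
      rw [WeierstrassCurve.Affine.equation_iff]
      simp only [Pool.Agent.Y699.crv, WeierstrassCurve.map, map_zero, map_neg, map_pow]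
      constructor
      · intro h5; linear_combination h5
      · intro h5; linear_combination h5
    rw [hap]
    have e1 : (Ideal.absNorm v.asIdeal : ℂ) * (Ideal.absNorm v.asIdeal : ℂ) ^ (-2 * s) =
        ((Ideal.absNorm v.asIdeal : ℕ) : ℂ) ^ (1 - 2 * s) := by
      have hN : ((Ideal.absNorm v.asIdeal : ℕ) : ℂ) ≠ 0 := by exact_mod_cast hn0
      rw [show (1 - 2 * s) = 1 + (-2 * s) by ring, Complex.cpow_add _ _ hN, Complex.cpow_one]
    rw [e1]

/-- the points over `ℚ(i)` -/
theorem sol_gauss {D : ZI} (h : Pool.Agent.Y699.Good D) (e : ZI ≃+* 𝓞 K) :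
    (Sol K (-(e D : K) ^ 2) 0).Finite := by
  classical
  refine ((({0, (e D : K), -(e D : K)} : Finset K).finite_toSet).image (fun x => (x, (0 : K)))).subset ?_
  rintro ⟨x, y⟩ hxy
  have h1 : y ^ 2 = x ^ 3 + -(e D : K) ^ 2 * x + 0 := hxy
  have h2 : y = 0 := Pool.Agent.Y699.crit_pts h e (x := x) (y := y) (by
    rw [h1]
    show _ = x ^ 3 - (e D : K) ^ 2 * x
    ring)
  subst h2
  refine ⟨x, ?_, rfl⟩
  have h3 : x * ((x - (e D : K)) * (x + (e D : K))) = 0 := by linear_combination -h1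
  simp only [Finset.coe_insert, Finset.coe_singleton, Set.mem_insert_iff, Set.mem_singleton_iff]
  rcases mul_eq_zero.1 h3 with h4 | h4
  · exact Or.inl h4
  · rcases mul_eq_zero.1 h4 with h5 | h5
    · right; left; linear_combination h5
    · right; right; linear_combination h5

end

end Pool.Agent.Helper93.Bq
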