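import Pool.Agent.Helper93.Bq.Pat
import Pool.Agent.Helper93.Bq.GL
import Pool.Agent.Y699.Pr

/-!
# Gaussian integers: adding a prime to a good `D`, and many primes that can be added
-/

set_option autoImplicit false
set_option linter.unusedSectionVars false

open NumberField IsDedekindDomain

namespace Pool.Agent.Helper93.Bq

open H385 (ZI im1 nrm)
open Pool.Agent.Y699 (PP PS PD mem_PD qr qr_rec qr_mul qr_one PS_prod PD_mul PD_subset PD_one qr_im)
open Pool.Agent.H304R2.EC.A1 (prim prim_mul prim_cancel prim_one)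

lemma qr_prodset {l : ZI} (hl : PP l) (U : Finset ZI) : qr l (∏ π ∈ U, π) = ∏ π ∈ U, qr l π := by
  classical
  induction U using Finset.induction_on with
  | empty => rw [Finset.prod_empty, Finset.prod_empty, qr_one hl]
  | insert a s ha ih => rw [Finset.prod_insert ha, Finset.prod_insert ha, qr_mul hl, ih]

lemma ker_aux {D l p : ZI} (h : Pool.Agent.Y699.Good D) (hl : PP l)
    (h0 : p ∈ PD D) (hq0 : qr l p = -1) (hq : ∀ π ∈ PD D, π ≠ p → qr l π = 1)
    {d d' : ZI} (hd : prim d) (hd' : prim d') (he : D * l = d * d')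
    (h1 : ∀ π ∈ PD d, qr π d' = 1) (h2 : ∀ π ∈ PD d', qr π d = 1) (hld : l ∣ d) : d' = 1 := by
  classical
  obtain ⟨e, rfl⟩ := hld
  have hpe : prim e := prim_cancel hl.prm hd
  have hD : D = e * d' := by
    apply mul_left_cancel₀ hl.ne
    linear_combination he
  have hD0 : D ≠ 0 := h.ps.ne
  have he0 : e ≠ 0 := by rintro rfl; exact hD0 (by rw [hD, zero_mul])
  have hd0 : d' ≠ 0 := by rintro rfl; exact hD0 (by rw [hD, mul_zero])
  have hle0 : l * e ≠ 0 := mul_ne_zero hl.ne he0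
  have hd'D : d' ∣ D := ⟨e, by rw [hD, mul_comm]⟩
  have hpsd : PS d' := h.ps.of_dvd hd' hd'D
  have h3 : qr l d' = 1 := h1 l ((mem_PD hle0).2 ⟨hl, dvd_mul_right _ _⟩)
  have h4 : p ∉ PD d' := by
    intro hp
    have h5 : qr l d' = qr l p := by
      conv_lhs => rw [← hpsd.prod]
      rw [qr_prodset hl]
      exact Finset.prod_eq_single p (fun π hπ hne => hq π (PD_subset hD0 hd'D hπ) hne)
        (fun hn => absurd hp hn)
    rw [h3, hq0] at h5
    exact absurd h5 (by norm_num)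
  have h5 : p ∈ PD e := by
    rw [hD, PD_mul he0 hd0, Finset.mem_union] at h0
    exact h0.resolve_right h4
  rcases h.ker e d' hpe hd' hD (fun π hπ => h1 π (PD_subset hle0 (dvd_mul_left _ _) hπ))
    (fun π hπ => by
      have hπP := ((mem_PD hd0).1 hπ).1
      have h6 := h2 π hπ
      rw [qr_mul hπP, qr_rec hπP hl, hq π (PD_subset hD0 hd'D hπ) (by
        rintro rfl; exact h4 hπ), one_mul] at h6
      exact h6) with h6 | h6
  · rw [h6, PD_one] at h5
    exact absurd h5 (Finset.notMem_empty _)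
  · exact h6

/-- adding a prime -/
theorem good_mul {D l p : ZI} (h : Pool.Agent.Y699.Good D) (hl : PP l) (hlD : ¬ l ∣ D)
    (h8 : l.norm % 8 = 1) (h0 : p ∈ PD D) (hq0 : qr l p = -1)
    (hq : ∀ π ∈ PD D, π ≠ p → qr l π = 1) : Pool.Agent.Y699.Good (D * l) := by
  have hcop : IsCoprime l D := (hl.pr.irreducible.coprime_iff_not_dvd).2 hlD
  have hps : PS (D * l) := (PS.mul_iff h.ps.prm hl.prm).2 ⟨h.ps, hl.ps, hcop.symm⟩
  refine ⟨hps, ?_, fun d d' hd hd' he h1 h2 => ?_⟩
  · rw [Zsqrtd.norm_mul, Int.mul_emod, h.five, h8]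
    norm_num
  · have hl2 : l ∣ d * d' := by rw [← he]; exact dvd_mul_left _ _
    rcases hl.pr.dvd_or_dvd hl2 with h3 | h3
    · exact Or.inr (ker_aux h hl h0 hq0 hq hd hd' he h1 h2 h3)
    · exact Or.inl (ker_aux h hl h0 hq0 hq hd' hd (by rw [he, mul_comm]) h2 h1 h3)

/-- all the products are good -/
def AG (M : Finset ZI) (D : ZI) : Prop := ∀ T ⊆ M, Pool.Agent.Y699.Good (D * ∏ π ∈ T, π)

lemma AG.good {M : Finset ZI} {D : ZI} (h : AG M D) : Pool.Agent.Y699.Good D := by
  have := h ∅ (Finset.empty_subset _)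
  rwa [Finset.prod_empty, mul_one] at this

theorem AG.insert {M : Finset ZI} {D : ZI} (h : AG M D) (hM : ∀ π ∈ M, PP π)
    {l p : ZI} (hl : PP l) (hlD : ¬ l ∣ D) (hlM : l ∉ M) (h8 : l.norm % 8 = 1) (h0 : p ∈ PD D)
    (hq0 : qr l p = -1) (hq : ∀ π ∈ PD D ∪ M, π ≠ p → qr l π = 1) :
    AG (insert l M) D := by
  intro T hT
  by_cases hlT : l ∈ T
  · have hT' : T.erase l ⊆ M := by
      intro x hx
      rw [Finset.mem_erase] at hx
      exact (Finset.mem_insert.1 (hT hx.2)).resolve_left hx.1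
    have e1 : ∏ π ∈ T, π = l * ∏ π ∈ T.erase l, π := (Finset.mul_prod_erase T (fun x => x) hlT).symm
    have e2 : D * ∏ π ∈ T, π = D * (∏ π ∈ T.erase l, π) * l := by rw [e1]; ring
    rw [e2]
    have hPS := PS_prod (S := T.erase l) (fun π hπ => hM π (hT' hπ))
    have hg := h _ hT'
    have hPD : ∀ x, x ∈ PD (D * ∏ π ∈ T.erase l, π) ↔ x ∈ PD D ∨ x ∈ T.erase l := by
      intro x
      rw [PD_mul h.good.ps.ne hPS.1.ne, Finset.mem_union, hPS.2]
    refine good_mul hg hl ?_ h8 (p := p) ?_ hq0 ?_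
    · intro hd
      rcases hl.pr.dvd_or_dvd hd with h3 | h3
      · exact hlD h3
      · obtain ⟨π, hπ, h4⟩ := (hl.pr.dvd_finsetProd_iff _).1 h3
        have h5 := hl.eq_of_dvd (hM π (hT' hπ)) h4
        exact hlM (h5 ▸ hT' hπ)
    · rw [hPD]
      exact Or.inl h0
    · intro π hπ hne
      rw [hPD] at hπ
      refine hq π (Finset.mem_union.2 ?_) hne
      exact hπ.imp id (fun h3 => hT' h3)
  · refine h T fun x hx => ?_
    exact (Finset.mem_insert.1 (hT hx)).resolve_left fun h3 => hlT (h3 ▸ hx)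

/-! ### the field `ℚ(i)` -/

/-- the field -/
abbrev K4 : Type := CyclotomicField 4 ℚ

instance : NeZero ((4 : ℕ) : ℚ) := ⟨by norm_num⟩

instance instCyc4 : IsCyclotomicExtension {4} ℚ K4 := CyclotomicField.isCyclotomicExtension 4 ℚ

instance instNF4 : NumberField K4 := IsCyclotomicExtension.numberField {4} ℚ K4

lemma exists_e : Nonempty (ZI ≃+* 𝓞 K4) := by
  obtain ⟨z4, hz4⟩ : ∃ z : K4, IsPrimitiveRoot z 4 := ⟨_, IsCyclotomicExtension.zeta_spec 4 ℚ K4⟩
  have hsq : z4 * z4 = -1 := by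
    have h1 : z4 ^ 4 = 1 := hz4.pow_eq_one
    have h2 : z4 ^ 2 ≠ 1 := hz4.pow_ne_one_of_pos_of_lt (by norm_num) (by norm_num)
    have h3 : (z4 ^ 2 - 1) * (z4 * z4 + 1) = 0 := by linear_combination h1
    rcases mul_eq_zero.1 h3 with h | h
    · exact absurd (sub_eq_zero.1 h) h2
    · linear_combination h
  let emb : GaussianInt →+* K4 := Zsqrtd.lift ⟨z4, by rw [hsq]; norm_num⟩
  have hap : ∀ z : GaussianInt, emb z = z.re + z.im * z4 := fun z => rfl
  have hinj : Function.Injective emb := by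
    refine Zsqrtd.lift_injective _ ?_
    intro n h
    nlinarith [mul_self_nonneg n]
  have hzi : IsIntegral ℤ z4 := hz4.isIntegral (by norm_num)
  have hint : ∀ z : GaussianInt, IsIntegral ℤ (emb z) := by
    intro z
    rw [hap]
    exact IsIntegral.add (isIntegral_algebraMap (R := ℤ) (x := z.re))
      (IsIntegral.mul (isIntegral_algebraMap (R := ℤ) (x := z.im)) hzi)
  have hsurj : ∀ {x : K4}, IsIntegral ℤ x → ∃ z, emb z = x := by
    intro x hx
    have h1 := IsCyclotomicExtension.Rat.isIntegralClosure_adjoin_singleton (n := 4) (K := K4) hz4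
    obtain ⟨y, hy⟩ := h1.isIntegral_iff.1 hx
    have h2 : Algebra.adjoin ℤ ({z4} : Set K4) ≤ (emb.toIntAlgHom).range := by
      refine Algebra.adjoin_le ?_
      intro u hu
      rw [Set.mem_singleton_iff] at hu
      rw [hu]
      exact ⟨⟨0, 1⟩, by simp [hap]⟩
    obtain ⟨z, hz⟩ := h2 y.2
    exact ⟨z, by rw [← hy]; exact hz⟩
  exact ⟨RingEquiv.ofBijective
    (emb.codRestrict (integralClosure ℤ K4).toSubring hint : GaussianInt →+* 𝓞 K4)
    ⟨fun a b h => hinj (congrArg Subtype.val h), fun x => by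
      obtain ⟨z, hz⟩ := hsurj x.2
      exact ⟨z, Subtype.ext hz⟩⟩⟩

/-! ### independence -/

lemma im1_unit : IsUnit (im1 : ZI) := IsUnit.of_mul_eq_one (-im1) (by decide)

lemma not_sq {M : Finset ZI} (hM : ∀ π ∈ M, PP π) {U : Finset ZI}
    (hU : U ⊆ insert im1 M) (hne : U.Nonempty) (w : ZI) : ∏ π ∈ U, π ≠ w * w := by
  intro hw
  by_cases hex : ∃ π ∈ U, π ≠ im1
  · obtain ⟨π, hπ, hπi⟩ := hex
    have hπP : PP π := hM π ((Finset.mem_insert.1 (hU hπ)).resolve_left hπi)
    have h1 : π ∣ w * w := by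
      rw [← hw]
      exact Finset.dvd_prod_of_mem _ hπ
    have h2 : π ∣ w := by
      rcases hπP.pr.dvd_or_dvd h1 with h | h <;> exact h
    have h3 : π * π ∣ ∏ ρ ∈ U, ρ := by
      rw [hw]
      exact mul_dvd_mul h2 h2
    rw [← Finset.mul_prod_erase U (fun x => x) hπ] at h3
    have h4 : π ∣ ∏ ρ ∈ U.erase π, ρ := (mul_dvd_mul_iff_left hπP.ne).1 h3
    obtain ⟨ρ, hρ, h5⟩ := (hπP.pr.dvd_finsetProd_iff _).1 h4
    rw [Finset.mem_erase] at hρ
    rcases Finset.mem_insert.1 (hU hρ.2) with h6 | h6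
    · rw [h6] at h5
      exact hπP.pr.not_isUnit (isUnit_of_dvd_unit h5 im1_unit)
    · exact hρ.1 (hπP.eq_of_dvd (hM ρ h6) h5).symm
  · push Not at hex
    have hU1 : U = {im1} := by
      ext x
      rw [Finset.mem_singleton]
      constructor
      · exact hex x
      · rintro rfl
        obtain ⟨y, hy⟩ := hne
        rw [← hex y hy]
        exact hy
    rw [hU1, Finset.prod_singleton] at hw
    have h1 := congrArg Zsqrtd.re hw
    have h2 := congrArg Zsqrtd.im hw
    have e1 : (im1 : ZI).re = 0 := by decide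
    have e2 : (im1 : ZI).im = 1 := by decide
    rw [e1, Zsqrtd.re_mul] at h1
    rw [e2, Zsqrtd.im_mul] at h2
    have h3 : 2 * (w.re * w.im) = 1 := by linarith
    omega

section
variable {K : Type} [Field K] [NumberField K]

lemma indep {M : Finset ZI} (hM : ∀ π ∈ M, PP π) [DecidableEq (𝓞 K)]
    (e : ZI ≃+* 𝓞 K) : Indep ((insert im1 M).image e) := by
  intro T hT hne
  have hU : T = (T.image e.symm).image e := by
    rw [Finset.image_image]
    ext x
    simp
  have hUs : T.image e.symm ⊆ insert im1 M := by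
    intro x hx
    obtain ⟨y, hy, rfl⟩ := Finset.mem_image.1 hx
    obtain ⟨z, hz, rfl⟩ := Finset.mem_image.1 (hT hy)
    rwa [RingEquiv.symm_apply_apply]
  rintro ⟨z, hz⟩
  have hint : IsIntegral ℤ z := by
    have h3 : IsIntegral ℤ (z ^ 2) := by
      rw [sq, ← hz]
      exact RingOfIntegers.isIntegral_coe _
    exact h3.of_pow (by norm_num)
  obtain ⟨zz, hzz⟩ : ∃ zz : 𝓞 K, (zz : K) = z := ⟨⟨z, hint⟩, rfl⟩
  have h1 : (∏ d ∈ T, d : 𝓞 K) = zz * zz := by
    apply RingOfIntegers.ext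
    rw [hz, ← hzz]
    rfl
  rw [hU, Finset.prod_image (fun a _ b _ h => e.injective h), ← map_prod] at h1
  refine not_sq hM hUs (hne.image _) (e.symm zz) ?_
  apply e.injective
  rw [h1, map_mul, RingEquiv.apply_symm_apply]

lemma mem_iff_dvd (e : ZI ≃+* 𝓞 K) (v : HeightOneSpectrum (𝓞 K)) (x : ZI) :
    e x ∈ v.asIdeal ↔ Pool.Agent.Y699.pg e v ∣ x := by
  rw [Pool.Agent.Y699.pg_span e v, Ideal.mem_span_singleton]
  constructor
  · intro h
    have := map_dvd e.symm h
    simpa using this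
  · exact map_dvd e

end

open Filter in
/-- **Many primes with prescribed symbols.** -/
theorem primes {M : Finset ZI} (hM : ∀ π ∈ M, PP π) (T : Finset ZI) :
    ∃ c : ℝ, 0 < c ∧ ∀ᶠ X : ℕ in atTop, c * (Nat.primeCounting X : ℝ) ≤
      (Set.ncard {l : ZI | (PP l ∧ l.norm % 8 = 1 ∧ ∀ π ∈ M, qr l π = if π ∈ T then 1 else -1) ∧
        l.norm ≤ X} : ℝ) := by
  classical
  obtain ⟨e⟩ := exists_e
  obtain ⟨c, hc, h1⟩ := pattern (K := K4) (indep hM e) ((insert im1 T).image e) 1 one_ne_zero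
  refine ⟨c, hc, ?_⟩
  filter_upwards [h1] with X hX
  refine hX.trans ?_
  set A : Set ZI := {l : ZI | (PP l ∧ l.norm % 8 = 1 ∧ ∀ π ∈ M, qr l π = if π ∈ T then 1 else -1) ∧
        l.norm ≤ X} with hA
  have hfin : A.Finite := by
    refine (Pool.Agent.Y699.fin_norm_le X).subset ?_
    rintro l ⟨-, h⟩
    have h0 := GaussianInt.norm_nonneg l
    show l.norm.natAbs ≤ X
    omega
  have := hfin.to_subtype
  have hcard : (Nat.card A : ℝ) = (A.ncard : ℝ) := by rw [Nat.card_coe_set_eq]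
  rw [← hcard]
  -- the map
  have key : ∀ v : HeightOneSpectrum (𝓞 K4), ((1 : 𝓞 K4) ∉ v.asIdeal ∧ (2 : 𝓞 K4) ∉ v.asIdeal ∧
      ∀ d ∈ (insert im1 M).image e, d ∉ v.asIdeal ∧
        ((∃ c : 𝓞 K4, c ^ 2 - d ∈ v.asIdeal) ↔ d ∈ (insert im1 T).image e)) →
      Ideal.absNorm v.asIdeal ≤ X → Pool.Agent.Y699.pg e v ∈ A := by
    rintro v ⟨-, h2, h3⟩ hn
    set l := Pool.Agent.Y699.pg e v with hl
    have hPP : PP l := by
      rcases Pool.Agent.Y699.pg_cases e v with ⟨h4, h5⟩ | ⟨h4, h5⟩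
      · exfalso
        apply h2
        have h6 := (Pool.Agent.H921R2.TatePole.nm_eq v).2.2
        rw [h4] at h6
        exact_mod_cast h6
      · have h6 := Pool.Agent.W164.RC.Ip_spec (Pool.Agent.H921R2.TatePole.below v).2 h5
        exact ⟨h6.2.1, h6.1⟩
    have hqr : ∀ π ∈ insert im1 M, qr l π = if π ∈ insert im1 T then 1 else -1 := by
      intro π hπ
      obtain ⟨h4, h5⟩ := h3 (e π) (Finset.mem_image_of_mem _ hπ)
      rw [mem_iff_dvd] at h4
      have h6 : (∃ b, l ∣ π - b ^ 2) ↔ π ∈ insert im1 T := by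
        have h7 : (∃ c : 𝓞 K4, c ^ 2 - e π ∈ v.asIdeal) ↔ ∃ b, l ∣ π - b ^ 2 := by
          constructor
          · rintro ⟨c, hc⟩
            refine ⟨e.symm c, ?_⟩
            rw [hl, ← mem_iff_dvd, ← neg_mem_iff, map_sub, map_pow, RingEquiv.apply_symm_apply,
              neg_sub]
            exact hc
          · rintro ⟨b, hb⟩
            refine ⟨e b, ?_⟩
            rw [hl, ← mem_iff_dvd, ← neg_mem_iff, map_sub, map_pow, neg_sub] at hb
            exact hb
        rw [← h7, h5, Finset.mem_image]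
        constructor
        · rintro ⟨x, hx, hxe⟩
          rwa [e.injective hxe] at hx
        · intro h8
          exact ⟨π, h8, rfl⟩
      unfold qr
      rw [if_neg h4]
      by_cases h9 : π ∈ insert im1 T
      · rw [if_pos h9, if_pos (h6.2 h9)]
      · rw [if_neg h9, if_neg fun h => h9 (h6.1 h)]
    refine ⟨⟨hPP, ?_, fun π hπ => ?_⟩, ?_⟩
    · have h4 := hqr im1 (Finset.mem_insert_self _ _)
      rw [if_pos (Finset.mem_insert_self _ _), qr_im hPP] at h4
      by_contra h5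
      rw [if_neg h5] at h4
      exact absurd h4 (by norm_num)
    · rw [hqr π (Finset.mem_insert_of_mem hπ)]
      have hne : π ≠ im1 := by
        rintro rfl
        exact (hM _ hπ).pr.not_isUnit im1_unit
      simp only [Finset.mem_insert, hne, false_or]
    · have h4 : Pool.Agent.H921R2.TatePole.nm v = nrm l :=
        Pool.Agent.Y699.norm_pg e (Pool.Agent.Y699.pg_span e v)
      unfold Pool.Agent.H921R2.TatePole.nm nrm at h4
      have h0 := GaussianInt.norm_nonneg l
      show l.norm ≤ (X : ℤ)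
      omega
  exact_mod_cast Nat.card_le_card_of_injective
    (fun v : {v : HeightOneSpectrum (𝓞 K4) // ((1 : 𝓞 K4) ∉ v.asIdeal ∧ (2 : 𝓞 K4) ∉ v.asIdeal ∧
      ∀ d ∈ (insert im1 M).image e, d ∉ v.asIdeal ∧
        ((∃ c : 𝓞 K4, c ^ 2 - d ∈ v.asIdeal) ↔ d ∈ (insert im1 T).image e)) ∧
      Ideal.absNorm v.asIdeal ≤ X} => (⟨Pool.Agent.Y699.pg e v.1, key v.1 v.2.1 v.2.2⟩ : A))
    (fun v w h => by
      apply Subtype.ext
      apply HeightOneSpectrum.ext
      have h4 : Pool.Agent.Y699.pg e v.1 = Pool.Agent.Y699.pg e w.1 := congrArg Subtype.val h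
      rw [Pool.Agent.Y699.pg_span e v.1, Pool.Agent.Y699.pg_span e w.1, h4])

end Pool.Agent.Helper93.Bq
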