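import Pool.Agent.Helper93.Bq.Tower
import Pool.Agent.K3h73.RS.Cheb

/-!
# Existence of multiquadratic extensions and places with prescribed quadratic residue symbols
-/

set_option autoImplicit false
set_option linter.unusedSectionVars false
set_option linter.style.haveILetI false

open NumberField IsDedekindDomain Module Polynomial

namespace Pool.Agent.Helper93.Bq

section
variable {K : Type} [Field K] [NumberField K]

/-- the polynomial -/
noncomputable def pS (S : Finset (𝓞 K)) : K[X] := ∏ d ∈ S, (X ^ 2 - C (d : K))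

lemma pS_ne (S : Finset (𝓞 K)) : pS S ≠ 0 := by
  unfold pS
  rw [Finset.prod_ne_zero_iff]
  intro d _
  exact (monic_X_pow_sub_C (d : K) two_ne_zero).ne_zero

noncomputable instance (S : Finset (𝓞 K)) : NumberField (pS S).SplittingField :=
  NumberField.of_module_finite K _

lemma exists_gen (S : Finset (𝓞 K)) : ∃ r : 𝓞 K → 𝓞 (pS S).SplittingField,
    Gen S (pS S).SplittingField r := by
  classical
  set F := (pS S).SplittingField with hF
  have hex : ∀ d : 𝓞 K, ∃ y : 𝓞 F, d ∈ S → (y : F) ^ 2 = algebraMap K F (d : K) := by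
    intro d
    by_cases hd : d ∈ S
    · have h1 : ((pS S).map (algebraMap K F)).Splits := SplittingField.splits (pS S)
      have h2 : ((X ^ 2 - C (d : K)).map (algebraMap K F)).Splits := by
        apply Splits.of_dvd h1 ((Polynomial.map_ne_zero_iff (algebraMap K F).injective).2 (pS_ne S))
        exact Polynomial.map_dvd _ (Finset.dvd_prod_of_mem _ hd)
      obtain ⟨x, hx⟩ := h2.exists_eval_eq_zero (by
        rw [Polynomial.degree_map, degree_X_pow_sub_C (by norm_num)]
        norm_num)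
      have hx2 : x ^ 2 = algebraMap K F (d : K) := by
        rw [Polynomial.eval_map, Polynomial.eval₂_sub, Polynomial.eval₂_pow, Polynomial.eval₂_X,
          Polynomial.eval₂_C, sub_eq_zero] at hx
        exact hx
      have hint : IsIntegral ℤ x := by
        have h3 : IsIntegral ℤ (x ^ 2) := by
          rw [hx2]
          exact (d.isIntegral_coe).map (algebraMap K F).toIntAlgHom
        exact h3.of_pow (by norm_num)
      exact ⟨⟨x, hint⟩, fun _ => hx2⟩
    · exact ⟨0, fun h => absurd h hd⟩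
  choose r hr using hex
  refine ⟨r, fun d hd => ?_, fun E hE => ?_⟩
  · apply RingOfIntegers.ext
    exact hr d hd
  · have h1 : Algebra.adjoin K ((pS S).rootSet F) = ⊤ := SplittingField.adjoin_rootSet (pS S)
    have h2 : ((pS S).rootSet F : Set F) ⊆ E := by
      intro x hx
      rw [Polynomial.mem_rootSet_of_ne (pS_ne S)] at hx
      have hx3 : ∏ d ∈ S, aeval x (X ^ 2 - C (d : K)) = 0 := by
        rw [← map_prod]
        exact hx
      rw [Finset.prod_eq_zero_iff] at hx3
      obtain ⟨d, hd, hx⟩ := hx3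
      rw [map_sub, map_pow, aeval_X, aeval_C, sub_eq_zero] at hx
      rw [← hr d hd] at hx
      rcases sq_eq_sq_iff_eq_or_eq_neg.1 hx with h | h
      · rw [h]; exact hE d hd
      · rw [h]; exact E.neg_mem (hE d hd)
    have h3 : Algebra.adjoin K ((pS S).rootSet F) ≤ E.toSubalgebra := Algebra.adjoin_le h2
    rw [h1] at h3
    rw [eq_top_iff]
    intro x _
    exact h3 (Algebra.mem_top)

open scoped Classical in
/-- the automorphism with prescribed signs -/
lemma exists_aut {S : Finset (𝓞 K)} (hI : Indep S) {F : Type} [Field F] [NumberField F]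
    [Algebra K F] [IsGalois K F] {r : 𝓞 K → 𝓞 F} (hG : Gen S F r) (T : Finset (𝓞 K)) :
    ∃ σ : F ≃ₐ[K] F, ∀ d ∈ S, σ (r d : F) = if d ∈ T then (r d : F) else -(r d : F) := by
  classical
  have hsq : ∀ d ∈ S, (r d : F) ^ 2 = algebraMap K F (d : K) := by
    intro d hd
    have h1 := congrArg (algebraMap (𝓞 F) F) (hG.sq d hd)
    rw [map_pow] at h1
    rw [h1]
    rfl
  have hpm : ∀ (σ : F ≃ₐ[K] F), ∀ d ∈ S, σ (r d : F) = (r d : F) ∨ σ (r d : F) = -(r d : F) := by
    intro σ d hd
    apply sq_eq_sq_iff_eq_or_eq_neg.1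
    rw [← map_pow, hsq d hd, AlgEquiv.commutes]
  have hdeg := (tower (K := K) (2 * ∏ d ∈ S, d) (fun v hv => not_mem_of_dvd (dvd_mul_right _ _) hv) S
    (fun d hd v hv => not_mem_of_dvd ((Finset.dvd_prod_of_mem _ hd).mul_left _) hv) hI F r hG).2.1
  have hcard : Nat.card (F ≃ₐ[K] F) = 2 ^ S.card := by
    rw [← hdeg]
    exact IsGalois.card_aut_eq_finrank K F
  have hfin : Fintype (F ≃ₐ[K] F) := inferInstance
  let f : (F ≃ₐ[K] F) → ({d // d ∈ S} → Bool) := fun σ d => decide (σ (r d.1 : F) = (r d.1 : F))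
  have hinj : Function.Injective f := by
    intro σ τ h
    have h1 : ∀ d ∈ S, σ (r d : F) = τ (r d : F) := by
      intro d hd
      have h2 := congrFun h ⟨d, hd⟩
      simp only [f, decide_eq_decide] at h2
      rcases hpm σ d hd with h3 | h3
      · rw [h3, h2.1 h3]
      · rcases hpm τ d hd with h4 | h4
        · rw [h4, h2.2 h4]
        · rw [h3, h4]
    have h5 : IntermediateField.fixedField (Subgroup.zpowers (τ⁻¹ * σ)) = ⊤ := by
      apply hG.gen
      intro d hd
      rw [IntermediateField.mem_fixedField_iff]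
      intro g hg
      have h6 : (τ⁻¹ * σ) • (r d : F) = (r d : F) := by
        show τ.symm (σ (r d : F)) = (r d : F)
        rw [h1 d hd, AlgEquiv.symm_apply_apply]
      exact (Subgroup.zpowers_le (H := MulAction.stabilizer (F ≃ₐ[K] F) (r d : F))).2 h6 hg
    ext x
    have h6 : x ∈ IntermediateField.fixedField (Subgroup.zpowers (τ⁻¹ * σ)) := by rw [h5]; trivial
    rw [IntermediateField.mem_fixedField_iff] at h6
    have h7 := h6 _ (Subgroup.mem_zpowers _)
    have h8 : τ.symm (σ x) = x := h7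
    rw [← h8, AlgEquiv.apply_symm_apply, h8]
  have hbij : Function.Bijective f := by
    rw [Fintype.bijective_iff_injective_and_card]
    refine ⟨hinj, ?_⟩
    rw [← Nat.card_eq_fintype_card, hcard]
    simp
  obtain ⟨σ, hσ⟩ := hbij.2 (fun d => decide (d.1 ∈ T))
  refine ⟨σ, fun d hd => ?_⟩
  have h1 := congrFun hσ ⟨d, hd⟩
  simp only [f, decide_eq_decide] at h1
  split_ifs with h2
  · exact h1.2 h2
  · exact (hpm σ d hd).resolve_left fun h3 => h2 (h1.1 h3)

open Pool.Agent.K3h30.RS (PosProportion Above)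

lemma PosProportion.mono' {P Q : HeightOneSpectrum (𝓞 K) → Prop} (h : PosProportion P)
    (hPQ : ∀ v, P v → Q v) : PosProportion Q := by
  obtain ⟨c, hc, h1⟩ := h
  refine ⟨c, hc, ?_⟩
  filter_upwards [h1] with X hX
  refine hX.trans ?_
  have hfin : Finite {v : HeightOneSpectrum (𝓞 K) // Q v ∧ Ideal.absNorm v.asIdeal ≤ X} := by
    have h2 : {I : Ideal (𝓞 K) | Ideal.absNorm I ≤ X}.Finite := Ideal.finite_setOfPred_absNorm_le X
    have h3 : Finite {I : Ideal (𝓞 K) | Ideal.absNorm I ≤ X} := h2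
    refine Finite.of_injective (β := {I : Ideal (𝓞 K) | Ideal.absNorm I ≤ X})
      (fun v => ⟨v.1.asIdeal, v.2.2⟩) ?_
    intro v w h
    apply Subtype.ext
    apply HeightOneSpectrum.ext
    exact congrArg Subtype.val h
  exact_mod_cast Nat.card_le_card_of_injective
    (fun v : {v : HeightOneSpectrum (𝓞 K) // P v ∧ Ideal.absNorm v.asIdeal ≤ X} =>
      (⟨v.1, hPQ _ v.2.1, v.2.2⟩ : {v : HeightOneSpectrum (𝓞 K) // Q v ∧ Ideal.absNorm v.asIdeal ≤ X}))
    (fun v w h => Subtype.ext (congrArg (fun u => u.1) h))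

/-- **Places with prescribed quadratic residue symbols.** -/
theorem pattern {S : Finset (𝓞 K)} (hI : Indep S) (T : Finset (𝓞 K)) (B : 𝓞 K) (hB : B ≠ 0) :
    PosProportion (fun v : HeightOneSpectrum (𝓞 K) => B ∉ v.asIdeal ∧ (2 : 𝓞 K) ∉ v.asIdeal ∧
      ∀ d ∈ S, d ∉ v.asIdeal ∧ ((∃ c : 𝓞 K, c ^ 2 - d ∈ v.asIdeal) ↔ d ∈ T)) := by
  classical
  obtain ⟨r, hG⟩ := exists_gen S
  have hgal : IsGalois K (pS S).SplittingField := {}
  obtain ⟨σ, hσ⟩ := exists_aut hI hG T
  have hne : ∀ d ∈ S, d ≠ 0 := by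
    rintro d hd rfl
    apply hI {0} (by simpa using hd) (Finset.singleton_nonempty _)
    rw [Finset.prod_singleton]
    exact ⟨0, by simp⟩
  have hfin : {v : HeightOneSpectrum (𝓞 K) | B * (2 * ∏ d ∈ S, d) ∈ v.asIdeal}.Finite := by
    have h0 : B * (2 * ∏ d ∈ S, d) ≠ 0 :=
      mul_ne_zero hB (mul_ne_zero two_ne_zero (Finset.prod_ne_zero_iff.2 hne))
    have h1 : Ideal.span {B * (2 * ∏ d ∈ S, d)} ≠ ⊥ := by
      rwa [Ne, Ideal.span_singleton_eq_bot]
    refine (Ideal.finite_factors h1).subset ?_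
    intro v hv
    show v.asIdeal ∣ _
    rw [Ideal.dvd_iff_le, Ideal.span_singleton_le_iff_mem]
    exact hv
  have hC := Pool.Agent.K3h73.RS.t_CHEB K (pS S).SplittingField σ hfin.toFinset
  refine PosProportion.mono' hC ?_
  rintro v ⟨hv, P, hP, hval⟩
  rw [Set.Finite.mem_toFinset] at hv
  have hv' : B * (2 * ∏ d ∈ S, d) ∉ v.asIdeal := hv
  have h2 : (2 : 𝓞 K) ∉ v.asIdeal := not_mem_of_dvd ((dvd_mul_right _ _).mul_left _) hv'
  refine ⟨not_mem_of_dvd (dvd_mul_right _ _) hv', h2, fun d hd => ?_⟩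
  have hdv : d ∉ v.asIdeal := not_mem_of_dvd (((Finset.dvd_prod_of_mem _ hd).mul_left _).mul_left _) hv'
  refine ⟨hdv, ?_⟩
  obtain ⟨v', hv'', hPv⟩ := hP
  rw [Set.mem_singleton_iff] at hv''
  subst hv''
  have hunder : P.under (𝓞 K) = v' := HeightOneSpectrum.ext hPv
  -- the residue fields
  have hmax : v'.asIdeal.IsMaximal := v'.isPrime.isMaximal v'.ne_bot
  have hmax' : P.asIdeal.IsMaximal := P.isPrime.isMaximal P.ne_bot
  letI : Field (𝓞 K ⧸ v'.asIdeal) := Ideal.Quotient.field v'.asIdeal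
  letI : Field (𝓞 (pS S).SplittingField ⧸ P.asIdeal) := Ideal.Quotient.field P.asIdeal
  have : Finite (𝓞 K ⧸ v'.asIdeal) := Ideal.finiteQuotientOfFreeOfNeBot v'.asIdeal v'.ne_bot
  letI : Fintype (𝓞 K ⧸ v'.asIdeal) := Fintype.ofFinite _
  have hE : ringChar (𝓞 K ⧸ v'.asIdeal) ≠ 2 := ringChar_ne h2
  have hd' : Ideal.Quotient.mk v'.asIdeal d ≠ 0 := by
    rwa [Ne, Ideal.Quotient.eq_zero_iff_mem]
  obtain ⟨f, hf, hfm⟩ := res_map v' P hunder
  -- the sign
  have hfrob : Ideal.Quotient.mk P.asIdeal (if d ∈ T then r d else -(r d)) =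
      (Ideal.Quotient.mk P.asIdeal (r d)) ^ (Ideal.absNorm v'.asIdeal) := by
    have h3 := hval (r d)
    rw [hσ d hd] at h3
    have h4 : (if d ∈ T then (r d : (pS S).SplittingField) else -(r d : (pS S).SplittingField)) -
        (r d : (pS S).SplittingField) ^ (Ideal.absNorm v'.asIdeal) =
        algebraMap (𝓞 (pS S).SplittingField) (pS S).SplittingField
          ((if d ∈ T then r d else -(r d)) - (r d) ^ (Ideal.absNorm v'.asIdeal)) := by
      rw [map_sub, map_pow]
      split_ifs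
      · rfl
      · rw [map_neg]
    rw [h4, HeightOneSpectrum.valuation_lt_one_iff_mem, ← Ideal.Quotient.eq_zero_iff_mem, map_sub,
      map_pow, sub_eq_zero] at h3
    exact h3
  have hrr : (Ideal.Quotient.mk P.asIdeal (r d)) ^ 2 = f (Ideal.Quotient.mk v'.asIdeal d) := by
    rw [hfm, ← hG.sq d hd, map_pow]
  have hr0 : Ideal.Quotient.mk P.asIdeal (r d) ≠ 0 := by
    intro h0
    rw [h0] at hrr
    apply hd'
    apply hf
    rw [map_zero, ← hrr]
    simp
  have hq : Ideal.absNorm v'.asIdeal = 2 * (Fintype.card (𝓞 K ⧸ v'.asIdeal) / 2) + 1 := by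
    rw [card_eq v']
    have := FiniteField.odd_card_of_char_ne_two hE
    omega
  have hsign : f ((Ideal.Quotient.mk v'.asIdeal d) ^ (Fintype.card (𝓞 K ⧸ v'.asIdeal) / 2)) =
      if d ∈ T then 1 else -1 := by
    rw [map_pow, ← hrr, ← pow_mul]
    have h3 : (Ideal.Quotient.mk P.asIdeal (r d)) ^ (2 * (Fintype.card (𝓞 K ⧸ v'.asIdeal) / 2)) *
        Ideal.Quotient.mk P.asIdeal (r d) =
        (if d ∈ T then 1 else -1) * Ideal.Quotient.mk P.asIdeal (r d) := by
      rw [← pow_succ, ← hq, ← hfrob]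
      split_ifs
      · rw [one_mul]
      · rw [map_neg, neg_one_mul]
    exact mul_right_cancel₀ hr0 h3
  have hsq : IsSquare (Ideal.Quotient.mk v'.asIdeal d) ↔ ∃ c : 𝓞 K, c ^ 2 - d ∈ v'.asIdeal := by
    constructor
    · rintro ⟨y, hy⟩
      obtain ⟨c, rfl⟩ := Ideal.Quotient.mk_surjective y
      refine ⟨c, ?_⟩
      rw [← Ideal.Quotient.eq_zero_iff_mem, map_sub, map_pow, hy]
      ring
    · rintro ⟨c, hc⟩
      refine ⟨Ideal.Quotient.mk v'.asIdeal c, ?_⟩
      rw [← Ideal.Quotient.eq_zero_iff_mem, map_sub, map_pow, sub_eq_zero] at hc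
      rw [← hc]
      ring
  rw [← hsq, FiniteField.isSquare_iff hE hd']
  constructor
  · intro h3
    by_contra h4
    rw [h3, map_one, if_neg h4] at hsign
    have h5 : (2 : 𝓞 (pS S).SplittingField ⧸ P.asIdeal) = 0 := by linear_combination hsign
    have h6 : f 2 = 0 := by rw [map_ofNat, h5]
    have h7 : (2 : 𝓞 K ⧸ v'.asIdeal) = 0 := by
      apply hf
      rw [h6, map_zero]
    apply h2
    rw [← Ideal.Quotient.eq_zero_iff_mem, map_ofNat]
    exact h7
  · intro h4
    rw [if_pos h4] at hsign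
    apply hf
    rw [hsign, map_one]

end

end Pool.Agent.Helper93.Bq
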