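import Pool.Agent.Helper93.Bq.Split

/-!
# Finiteness of the group of points of `y² = x³ + a x + b` over a quadratic extension
-/

set_option autoImplicit false
set_option linter.unusedSectionVars false

open NumberField IsDedekindDomain

namespace Pool.Agent.Helper93.Bq

open WeierstrassCurve

/-- the curve `y² = x³ + a x + b` -/
def crv (k : Type) [Field k] (a b : k) : WeierstrassCurve k := ⟨0, 0, 0, a, b⟩

/-- the affine solutions -/
def Sol (k : Type) [Field k] (a b : k) : Set (k × k) := {q | q.2 ^ 2 = q.1 ^ 3 + a * q.1 + b}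

section
variable {k : Type} [Field k]

lemma crv_eq (a b x y : k) : (crv k a b).toAffine.Equation x y ↔ y ^ 2 = x ^ 3 + a * x + b := by
  rw [Affine.equation_iff]
  simp only [crv]
  constructor
  · intro h; linear_combination h
  · intro h; linear_combination h

lemma crv_ns (h2 : (2 : k) ≠ 0) (a b : k) (hD : 4 * a ^ 3 + 27 * b ^ 2 ≠ 0) {x y : k}
    (h : y ^ 2 = x ^ 3 + a * x + b) : (crv k a b).toAffine.Nonsingular x y := by
  rw [Affine.nonsingular_iff]
  refine ⟨(crv_eq a b x y).2 h, ?_⟩
  simp only [crv]
  by_contra hcon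
  push Not at hcon
  obtain ⟨h1, h3⟩ := hcon
  have hy : y = 0 := by
    have h4 : 2 * y = 0 := by linear_combination h3
    exact (mul_eq_zero.1 h4).resolve_left h2
  subst hy
  have h5 : 3 * x ^ 2 + a = 0 := by linear_combination -h1
  have ha : a = -3 * x ^ 2 := by linear_combination h5
  subst ha
  have hb : b = 2 * x ^ 3 := by linear_combination -h
  subst hb
  apply hD
  ring

/-- the coordinates -/
def crd {W : Affine k} : W.Point → Option (k × k)
  | 0 => none
  | .some x y _ => some (x, y)

lemma crd_inj {W : Affine k} : Function.Injective (crd (W := W)) := by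
  rintro (_ | _) (_ | _) h
  · rfl
  · exact absurd h (by simp [crd])
  · exact absurd h (by simp [crd])
  · simp only [crd, Option.some.injEq, Prod.mk.injEq] at h
    obtain ⟨rfl, rfl⟩ := h
    rfl

lemma finite_of_crd {W : Affine k} {S : Set W.Point} {T : Set (k × k)} (hT : T.Finite)
    (h : ∀ x y hxy, (Affine.Point.some x y hxy : W.Point) ∈ S → (x, y) ∈ T) : S.Finite := by
  apply Set.Finite.of_finite_image (f := crd) ?_ (crd_inj.injOn)
  refine ((hT.image some).insert none).subset ?_
  rintro _ ⟨P, hP, rfl⟩
  rcases P with _ | ⟨x, y, hxy⟩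
  · left; rfl
  · right
    exact ⟨(x, y), h x y hxy hP, rfl⟩

/-- finiteness in terms of the affine solutions -/
lemma finite_iff (h2 : (2 : k) ≠ 0) (a b : k) (hD : 4 * a ^ 3 + 27 * b ^ 2 ≠ 0) :
    Finite (crv k a b).toAffine.Point ↔ (Sol k a b).Finite := by
  constructor
  · intro h
    refine Set.Finite.subset (Set.finite_range (fun P : (crv k a b).toAffine.Point =>
      (crd P).getD (0, 0))) ?_
    rintro ⟨x, y⟩ hxy
    exact ⟨Affine.Point.some x y (crv_ns h2 a b hD hxy), rfl⟩
  · intro h
    rw [← Set.finite_univ_iff]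
    refine finite_of_crd h fun x y hxy _ => ?_
    exact (crv_eq a b x y).1 hxy.1

end

section
variable {L F : Type} [Field L] [NumberField L] [Field F] [NumberField F] [Algebra L F]
  {d : 𝓞 L} {r : 𝓞 F}

/-- **Finiteness of the points over a quadratic extension.** -/
theorem finite_quad (h : Quad (L := L) (F := F) d r) {a b : L}
    (h1 : (Sol L a b).Finite) (h2 : (Sol L ((d : L) ^ 2 * a) ((d : L) ^ 3 * b)).Finite) :
    (Sol F (algebraMap L F a) (algebraMap L F b)).Finite ∨ 4 * a ^ 3 + 27 * b ^ 2 = 0 := by
  classical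
  by_cases hD : 4 * a ^ 3 + 27 * b ^ 2 = 0
  · right; exact hD
  left
  have hD' : 4 * (algebraMap L F a) ^ 3 + 27 * (algebraMap L F b) ^ 2 ≠ 0 := by
    intro h0
    apply hD
    apply (algebraMap L F).injective
    rw [map_zero, ← h0]
    simp only [map_add, map_mul, map_pow, map_ofNat]
  obtain ⟨σ, hσr, hσσ, hfix⟩ := h.conj
  have hr0 : (r : F) ≠ 0 := by
    intro h0
    apply h.ns 0
    rw [map_zero, h0]
  have hd0 : (d : L) ≠ 0 := by
    intro h0
    apply hr0
    have := h.sq'
    rw [h0, map_zero] at this
    exact pow_eq_zero_iff (two_ne_zero) |>.1 this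
  -- the curve over `F`
  let W : Affine L := (crv L a b).toAffine
  have hW : ∀ x y : F, (W.baseChange F).Equation x y ↔
      y ^ 2 = x ^ 3 + algebraMap L F a * x + algebraMap L F b := by
    intro x y
    have := crv_eq (algebraMap L F a) (algebraMap L F b) x y
    rw [← this]
    have e : W.baseChange F = (crv F (algebraMap L F a) (algebraMap L F b)).toAffine :=
      WeierstrassCurve.ext (map_zero _) (map_zero _) (map_zero _) rfl rfl
    rw [e]
  let S : (W.baseChange F).Point →+ (W.baseChange F).Point := Affine.Point.map (W' := W) (σ : F →ₐ[L] F)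
  have hSs : ∀ x y hxy, ∃ hxy', S (Affine.Point.some x y hxy) = Affine.Point.some (σ x) (σ y) hxy' :=
    fun x y hxy => ⟨_, rfl⟩
  have hSS : ∀ P, S (S P) = P := by
    rintro (_ | ⟨x, y, hxy⟩)
    · rfl
    · obtain ⟨h3, h4⟩ := hSs x y hxy
      obtain ⟨h5, h6⟩ := hSs _ _ h3
      rw [h4, h6]
      simp only [Affine.Point.some.injEq]
      exact ⟨hσσ x, hσσ y⟩
  -- fixed points
  have hplus : {P : (W.baseChange F).Point | S P = P}.Finite := by
    refine finite_of_crd (T := (fun q : L × L => (algebraMap L F q.1, algebraMap L F q.2)) ''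
      Sol L a b) (h1.image _) fun x y hxy hP => ?_
    rw [Set.mem_ofPred_eq] at hP
    obtain ⟨h3, h4⟩ := hSs x y hxy
    rw [h4, Affine.Point.some.injEq] at hP
    obtain ⟨x0, hx0⟩ := hfix x hP.1
    obtain ⟨y0, hy0⟩ := hfix y hP.2
    refine ⟨(x0, y0), ?_, by rw [hx0, hy0]⟩
    have h5 := (hW x y).1 hxy.1
    rw [hx0, hy0] at h5
    show y0 ^ 2 = x0 ^ 3 + a * x0 + b
    apply (algebraMap L F).injective
    simp only [map_add, map_mul, map_pow]
    exact h5
  -- antifixed points
  have hminus : {P : (W.baseChange F).Point | S P = -P}.Finite := by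
    refine finite_of_crd (T := (fun q : L × L => (algebraMap L F (q.1 / d),
      algebraMap L F (q.2 / (d : L) ^ 2) * (r : F))) ''
      Sol L ((d : L) ^ 2 * a) ((d : L) ^ 3 * b)) (h2.image _) fun x y hxy hP => ?_
    rw [Set.mem_ofPred_eq] at hP
    obtain ⟨h3, h4⟩ := hSs x y hxy
    rw [h4, Affine.Point.neg_some, Affine.Point.some.injEq] at hP
    obtain ⟨x0, hx0⟩ := hfix x hP.1
    have hy : σ y = -y := by
      have h5 := hP.2
      rw [h5]
      simp [Affine.negY, W, crv, Affine.baseChange]
    obtain ⟨y0, hy0⟩ := hfix (y / r) (by rw [map_div₀, hy, hσr, neg_div_neg_eq])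
    rw [div_eq_iff hr0] at hy0
    refine ⟨(d * x0, (d : L) ^ 2 * y0), ?_, ?_⟩
    · have h5 := (hW x y).1 hxy.1
      rw [hx0, hy0, mul_pow, h.sq'] at h5
      have h6 : y0 ^ 2 * d = x0 ^ 3 + a * x0 + b := by
        apply (algebraMap L F).injective
        simp only [map_add, map_mul, map_pow]
        exact h5
      show ((d : L) ^ 2 * y0) ^ 2 = ((d : L) * x0) ^ 3 + (d : L) ^ 2 * a * ((d : L) * x0) + (d : L) ^ 3 * b
      linear_combination (d : L) ^ 3 * h6
    · show ((algebraMap L F) ((d : L) * x0 / d), (algebraMap L F) ((d : L) ^ 2 * y0 / (d : L) ^ 2) * (r : F)) = (x, y)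
      rw [mul_div_cancel_left₀ _ hd0, mul_div_cancel_left₀ _ (pow_ne_zero 2 hd0), hx0, hy0]
  -- the torsion
  have htwo : {P : (W.baseChange F).Point | P + P = 0}.Finite := by
    have hroots : {x : F | x ^ 3 + algebraMap L F a * x + algebraMap L F b = 0}.Finite := by
      let p : Polynomial F := Polynomial.X ^ 3 + Polynomial.C (algebraMap L F a) * Polynomial.X +
        Polynomial.C (algebraMap L F b)
      have hp : p ≠ 0 := by
        have h3 : p.natDegree = 3 := by
          have h4 := Polynomial.natDegree_cubic (R := F) (a := 1) (b := 0) (c := algebraMap L F a)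
            (d := algebraMap L F b) one_ne_zero
          simp only [Polynomial.C_1, one_mul, map_zero, zero_mul, add_zero] at h4
          exact h4
        intro h0
        rw [h0, Polynomial.natDegree_zero] at h3
        omega
      refine (p.roots.toFinset.finite_toSet).subset ?_
      intro x hx
      rw [Finset.mem_coe, Multiset.mem_toFinset, Polynomial.mem_roots hp, Polynomial.IsRoot.def]
      simp only [p, Polynomial.eval_add, Polynomial.eval_mul, Polynomial.eval_pow,
        Polynomial.eval_X, Polynomial.eval_C]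
      exact hx
    refine finite_of_crd (T := (fun x => (x, 0)) ''
      {x : F | x ^ 3 + algebraMap L F a * x + algebraMap L F b = 0}) (hroots.image _)
      fun x y hxy hP => ?_
    rw [Set.mem_ofPred_eq] at hP
    have h5 : Affine.Point.some x y hxy = -Affine.Point.some x y hxy := by
      exact eq_neg_of_add_eq_zero_left hP
    rw [Affine.Point.neg_some, Affine.Point.some.injEq] at h5
    have hy : y = -y := by
      have h6 := h5.2
      have h7 : (W.baseChange F).negY x y = -y := by
        simp [Affine.negY, W, crv, Affine.baseChange]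
      rw [h7] at h6
      exact h6
    have hy0 : y = 0 := by
      have h6 : 2 * y = 0 := by linear_combination hy
      exact (mul_eq_zero.1 h6).resolve_left two_ne_zero
    subst hy0
    refine ⟨x, ?_, rfl⟩
    have h7 := (hW x 0).1 hxy.1
    rw [Set.mem_ofPred_eq, ← h7]
    ring
  -- the double of every point lies in a finite set
  have hsum : (Set.image2 (fun P Q => P + Q) {P : (W.baseChange F).Point | S P = P}
      {P : (W.baseChange F).Point | S P = -P}).Finite := hplus.image2 _ hminus
  have hall : (Set.univ : Set (W.baseChange F).Point).Finite := by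
    have h3 : (fun P : (W.baseChange F).Point => P + P) ⁻¹'
        (Set.image2 (fun P Q => P + Q) {P : (W.baseChange F).Point | S P = P}
      {P : (W.baseChange F).Point | S P = -P}) = Set.univ := by
      rw [Set.eq_univ_iff_forall]
      intro P
      refine ⟨P + S P, ?_, P - S P, ?_, ?_⟩
      · rw [Set.mem_ofPred_eq, map_add, hSS, add_comm]
      · rw [Set.mem_ofPred_eq, map_sub, hSS, neg_sub]
      · show P + S P + (P - S P) = P + P
        abel
    rw [← h3]
    refine hsum.preimage' fun Q _ => ?_
    by_cases hne : ((fun P : (W.baseChange F).Point => P + P) ⁻¹' {Q}).Nonempty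
    · obtain ⟨P0, hP0⟩ := hne
      refine (htwo.image (fun P => P0 + P)).subset ?_
      intro P hP
      refine ⟨P - P0, ?_, by show P0 + (P - P0) = P; abel⟩
      rw [Set.mem_preimage, Set.mem_singleton_iff] at hP hP0
      rw [Set.mem_ofPred_eq]
      have : P - P0 + (P - P0) = (P + P) - (P0 + P0) := by abel
      rw [this, hP, hP0, sub_self]
    · rw [Set.not_nonempty_iff_eq_empty.1 hne]
      exact Set.finite_empty
  have hfinP : Finite (W.baseChange F).Point := Set.finite_univ_iff.1 hall
  refine Set.Finite.subset (Set.finite_range (fun P : (W.baseChange F).Point =>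
      (crd P).getD (0, 0))) ?_
  rintro ⟨x, y⟩ hxy
  have hns : (W.baseChange F).Nonsingular x y := by
    have e : W.baseChange F = (crv F (algebraMap L F a) (algebraMap L F b)).toAffine :=
      WeierstrassCurve.ext (map_zero _) (map_zero _) (map_zero _) rfl rfl
    rw [e]
    exact crv_ns two_ne_zero _ _ hD' hxy
  exact ⟨Affine.Point.some x y hns, rfl⟩

end

end Pool.Agent.Helper93.Bq
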