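import Mathlib

/-!
# Quadratic extensions of number fields: the conjugation and the places above a place not dividing
# the discriminant
-/

set_option autoImplicit false
set_option linter.unusedSectionVars false
set_option linter.deprecated false

open NumberField IsDedekindDomain Module

namespace Pool.Agent.Helper93.Bq

/-- `F = L(r)`, `r² = d` -/
structure Quad {L F : Type} [Field L] [NumberField L] [Field F] [NumberField F] [Algebra L F]
    (d : 𝓞 L) (r : 𝓞 F) : Prop where
  deg : finrank L F = 2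
  sq : r ^ 2 = algebraMap (𝓞 L) (𝓞 F) d
  ns : ∀ x : L, algebraMap L F x ≠ (r : F)

section
variable {L F : Type} [Field L] [NumberField L] [Field F] [NumberField F] [Algebra L F]
  {d : 𝓞 L} {r : 𝓞 F}

lemma Quad.sq' (h : Quad (L := L) (F := F) d r) : (r : F) ^ 2 = algebraMap L F (d : L) := by
  have h1 := congrArg (algebraMap (𝓞 F) F) h.sq
  rw [map_pow] at h1
  rw [h1]
  rfl

lemma Quad.repr (h : Quad (L := L) (F := F) d r) (z : F) :
    ∃ x y : L, z = algebraMap L F x + algebraMap L F y * (r : F) := by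
  have hli : LinearIndependent L ![(1 : F), (r : F)] := by
    rw [LinearIndependent.pair_iff]
    intro s t hst
    by_cases ht : t = 0
    · subst ht
      rw [zero_smul, add_zero, Algebra.smul_def, mul_one] at hst
      exact ⟨(algebraMap L F).injective (by rw [hst, map_zero]), rfl⟩
    · exfalso
      apply h.ns (-s / t)
      have ht' : algebraMap L F t ≠ 0 := by
        rwa [Ne, map_eq_zero_iff _ (algebraMap L F).injective]
      rw [map_div₀, map_neg, div_eq_iff ht']
      rw [Algebra.smul_def, Algebra.smul_def, mul_one] at hst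
      linear_combination -hst
  have hspan : Submodule.span L (Set.range ![(1 : F), (r : F)]) = ⊤ := by
    apply hli.span_eq_top_of_card_eq_finrank'
    rw [h.deg]
    rfl
  have hz : z ∈ Submodule.span L (Set.range ![(1 : F), (r : F)]) := by
    rw [hspan]; trivial
  rw [Matrix.range_cons, Matrix.range_cons, Matrix.range_empty, Set.union_empty,
    Set.singleton_union, Submodule.mem_span_pair] at hz
  obtain ⟨x, y, hxy⟩ := hz
  refine ⟨x, y, ?_⟩
  rw [← hxy, Algebra.smul_def, Algebra.smul_def, mul_one]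

/-- the conjugation -/
lemma Quad.conj (h : Quad (L := L) (F := F) d r) :
    ∃ σ : F ≃ₐ[L] F, σ (r : F) = -(r : F) ∧ (∀ z, σ (σ z) = z) ∧
      ∀ z, σ z = z → ∃ x : L, z = algebraMap L F x := by
  have hq : Algebra.IsQuadraticExtension L F := { finrank_eq_two' := h.deg }
  have hcard := IsGalois.card_aut_eq_finrank L F
  rw [h.deg] at hcard
  have hnt : Nontrivial (F ≃ₐ[L] F) := by
    apply (Nat.card_eq_two_iff.1 hcard).elim
    rintro x ⟨y, hxy, -⟩
    exact ⟨x, y, hxy⟩
  obtain ⟨σ, hσ⟩ := exists_ne (1 : F ≃ₐ[L] F)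
  have hr : σ (r : F) = -(r : F) := by
    have h1 : (σ (r : F)) ^ 2 = (r : F) ^ 2 := by
      rw [← map_pow, h.sq', AlgEquiv.commutes]
    rcases sq_eq_sq_iff_eq_or_eq_neg.1 h1 with h2 | h2
    · exfalso
      apply hσ
      ext z
      obtain ⟨x, y, rfl⟩ := h.repr z
      rw [map_add, map_mul, AlgEquiv.commutes, AlgEquiv.commutes, h2]
      rfl
    · exact h2
  refine ⟨σ, hr, ?_, ?_⟩
  · intro z
    obtain ⟨x, y, rfl⟩ := h.repr z
    simp only [map_add, map_mul, AlgEquiv.commutes, hr, map_neg]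
    ring
  · intro z hz
    obtain ⟨x, y, rfl⟩ := h.repr z
    rw [map_add, map_mul, AlgEquiv.commutes, AlgEquiv.commutes, hr] at hz
    have h0 : (r : F) ≠ 0 := by
      intro h0
      apply h.ns 0
      rw [map_zero, h0]
    have hy : algebraMap L F y = 0 := by
      have h2 : 2 * (algebraMap L F y * (r : F)) = 0 := by linear_combination -hz
      rcases mul_eq_zero.1 h2 with h3 | h3
      · exact absurd h3 two_ne_zero
      · exact (mul_eq_zero.1 h3).resolve_right h0
    exact ⟨x, by rw [hy, zero_mul, add_zero]⟩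

section places

variable (v : HeightOneSpectrum (𝓞 L))

lemma mem_under (w : HeightOneSpectrum (𝓞 F)) (h : w.under (𝓞 L) = v) (x : 𝓞 L) :
    algebraMap (𝓞 L) (𝓞 F) x ∈ w.asIdeal ↔ x ∈ v.asIdeal := by
  rw [← h]
  rfl

lemma liesOver_of_under {w : HeightOneSpectrum (𝓞 F)} (h : w.under (𝓞 L) = v) :
    w.asIdeal.LiesOver v.asIdeal := by
  constructor
  rw [← h]
  rfl

/-- the places above `v` as a finite set -/
lemma sum_two (h : finrank L F = 2) :
    ∑ P ∈ IsDedekindDomain.primesOverFinset v.asIdeal (𝓞 F),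
      Ideal.ramificationIdx' v.asIdeal P * Ideal.inertiaDeg' v.asIdeal P = 2 := by
  have hmax : v.asIdeal.IsMaximal := v.isPrime.isMaximal v.ne_bot
  rw [Ideal.sum_ramification_inertia (𝓞 F) L F v.ne_bot, h]

lemma mem_pof (w : HeightOneSpectrum (𝓞 F)) :
    w.asIdeal ∈ IsDedekindDomain.primesOverFinset v.asIdeal (𝓞 F) ↔ w.under (𝓞 L) = v := by
  have hmax : v.asIdeal.IsMaximal := v.isPrime.isMaximal v.ne_bot
  rw [IsDedekindDomain.mem_primesOverFinset_iff v.ne_bot]
  constructor
  · intro hw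
    apply HeightOneSpectrum.ext
    exact hw.2.over.symm
  · intro h
    exact ⟨w.isPrime, liesOver_of_under v h⟩

lemma exists_w_of_mem {P : Ideal (𝓞 F)} (hP : P ∈ IsDedekindDomain.primesOverFinset v.asIdeal (𝓞 F)) :
    ∃ w : HeightOneSpectrum (𝓞 F), w.asIdeal = P ∧ w.under (𝓞 L) = v := by
  have hmax : v.asIdeal.IsMaximal := v.isPrime.isMaximal v.ne_bot
  have h1 := (IsDedekindDomain.mem_primesOverFinset_iff v.ne_bot (B := 𝓞 F)).1 hP
  have h2 : P ≠ ⊥ := Ideal.ne_bot_of_mem_primesOver v.ne_bot h1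
  refine ⟨⟨P, h1.1, h2⟩, rfl, ?_⟩
  apply HeightOneSpectrum.ext
  exact h1.2.over.symm

lemma exists_above : ∃ w : HeightOneSpectrum (𝓞 F), w.under (𝓞 L) = v := by
  have hmax : v.asIdeal.IsMaximal := v.isPrime.isMaximal v.ne_bot
  obtain ⟨P, hPm, hP⟩ := Ideal.exists_maximal_ideal_liesOver_of_isIntegral (S := 𝓞 F) v.asIdeal
  have h1 : P ∈ v.asIdeal.primesOver (𝓞 F) := ⟨hPm.isPrime, hP⟩
  have h2 : P ≠ ⊥ := Ideal.ne_bot_of_mem_primesOver v.ne_bot h1
  refine ⟨⟨P, h1.1, h2⟩, ?_⟩
  apply HeightOneSpectrum.ext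
  exact h1.2.over.symm

lemma idx_pos {w : HeightOneSpectrum (𝓞 F)} (h : w.under (𝓞 L) = v) :
    1 ≤ Ideal.ramificationIdx' v.asIdeal w.asIdeal ∧ 1 ≤ Ideal.inertiaDeg' v.asIdeal w.asIdeal := by
  have hmax : v.asIdeal.IsMaximal := v.isPrime.isMaximal v.ne_bot
  have := liesOver_of_under v h
  have := w.isPrime
  refine ⟨?_, ?_⟩
  · exact Nat.one_le_iff_ne_zero.2 (Ideal.IsDedekindDomain.ramificationIdx'_ne_zero_of_liesOver _ v.ne_bot)
  · exact Ideal.inertiaDeg'_pos _ _

lemma norm_eq {w : HeightOneSpectrum (𝓞 F)} (h : w.under (𝓞 L) = v) :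
    Ideal.absNorm w.asIdeal = Ideal.absNorm v.asIdeal ^ (Ideal.inertiaDeg' v.asIdeal w.asIdeal) := by
  have := liesOver_of_under v h
  exact Ideal.absNorm_eq_pow_inertiaDeg'_of_liesOver w.asIdeal v.asIdeal v.isPrime v.ne_bot

/-- the place above an inert place -/
theorem Quad.inert (h : Quad (L := L) (F := F) d r) (hc : ¬ ∃ c : 𝓞 L, c ^ 2 - d ∈ v.asIdeal) :
    ∃ w : HeightOneSpectrum (𝓞 F), (∀ w', w'.under (𝓞 L) = v ↔ w' = w) ∧
      Ideal.absNorm w.asIdeal = Ideal.absNorm v.asIdeal ^ 2 := by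
  classical
  have hmax : v.asIdeal.IsMaximal := v.isPrime.isMaximal v.ne_bot
  -- the degrees are at least two
  have key : ∀ w : HeightOneSpectrum (𝓞 F), w.under (𝓞 L) = v →
      2 ≤ Ideal.inertiaDeg' v.asIdeal w.asIdeal := by
    intro w hw
    have h1 := (idx_pos v hw).2
    by_contra hlt
    have h2 : Ideal.inertiaDeg' v.asIdeal w.asIdeal = 1 := by omega
    have h3 := norm_eq v hw
    rw [h2, pow_one] at h3
    -- the residue field is the same
    have hlo := liesOver_of_under v hw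
    have hfin : Finite (𝓞 F ⧸ w.asIdeal) := Ideal.finiteQuotientOfFreeOfNeBot w.asIdeal w.ne_bot
    have hfin' : Finite (𝓞 L ⧸ v.asIdeal) := Ideal.finiteQuotientOfFreeOfNeBot v.asIdeal v.ne_bot
    let f : 𝓞 L ⧸ v.asIdeal →+* 𝓞 F ⧸ w.asIdeal :=
      Ideal.quotientMap w.asIdeal (algebraMap (𝓞 L) (𝓞 F)) (by
        intro x hx
        exact (mem_under v w hw x).2 hx)
    have hinj : Function.Injective f := by
      apply Ideal.quotientMap_injective' 
      intro x hx
      exact (mem_under v w hw x).1 hx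
    have hsurj : Function.Surjective f := by
      have hb : Function.Bijective f := by
        rw [Nat.bijective_iff_injective_and_card]
        refine ⟨hinj, ?_⟩
        rw [Ideal.absNorm_apply, Submodule.cardQuot_apply, Ideal.absNorm_apply,
          Submodule.cardQuot_apply] at h3
        exact h3.symm
      exact hb.2
    obtain ⟨y, hy⟩ := hsurj (Ideal.Quotient.mk w.asIdeal r)
    obtain ⟨c, rfl⟩ := Ideal.Quotient.mk_surjective y
    apply hc
    refine ⟨c, ?_⟩
    rw [← mem_under v w hw, map_sub, map_pow, ← h.sq]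
    have h4 : Ideal.Quotient.mk w.asIdeal (algebraMap (𝓞 L) (𝓞 F) c) = Ideal.Quotient.mk w.asIdeal r := by
      rw [← hy]
      rfl
    rw [← Ideal.Quotient.eq_zero_iff_mem, map_sub, map_pow, map_pow, h4, sub_self]
  obtain ⟨w, hw⟩ := exists_above (F := F) v
  have hsum := sum_two (F := F) v h.deg
  have hwm := (mem_pof v w).2 hw
  have h1 := key w hw
  have h2 := (idx_pos v hw).1
  have hle : Ideal.ramificationIdx' v.asIdeal w.asIdeal * Ideal.inertiaDeg' v.asIdeal w.asIdeal ≤ 2 := by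
    rw [← hsum]
    exact Finset.single_le_sum (f := fun P => Ideal.ramificationIdx' v.asIdeal P *
      Ideal.inertiaDeg' v.asIdeal P) (fun _ _ => Nat.zero_le _) hwm
  have hdeg : Ideal.inertiaDeg' v.asIdeal w.asIdeal = 2 := by nlinarith
  refine ⟨w, fun w' => ⟨fun hw' => ?_, fun e => by rw [e]; exact hw⟩, by rw [norm_eq v hw, hdeg]⟩
  by_contra hne
  have hwm' := (mem_pof v w').2 hw'
  have h1' := key w' hw'
  have h2' := (idx_pos v hw').1
  have hne' : w'.asIdeal ≠ w.asIdeal := fun e => hne (HeightOneSpectrum.ext e)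
  have hle2 : ∑ P ∈ ({w'.asIdeal, w.asIdeal} : Finset (Ideal (𝓞 F))),
      Ideal.ramificationIdx' v.asIdeal P * Ideal.inertiaDeg' v.asIdeal P ≤ 2 := by
    rw [← hsum]
    apply Finset.sum_le_sum_of_subset
    intro P hP
    rw [Finset.mem_insert, Finset.mem_singleton] at hP
    rcases hP with rfl | rfl
    · exact hwm'
    · exact hwm
  rw [Finset.sum_pair hne'] at hle2
  nlinarith

/-- the places above a split place -/
theorem Quad.split (h : Quad (L := L) (F := F) d r) (h2 : (2 : 𝓞 L) ∉ v.asIdeal)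
    (hd : d ∉ v.asIdeal) {c : 𝓞 L} (hc : c ^ 2 - d ∈ v.asIdeal) :
    ∃ w w' : HeightOneSpectrum (𝓞 F), w ≠ w' ∧
      (∀ u : HeightOneSpectrum (𝓞 F), u.under (𝓞 L) = v ↔ u = w ∨ u = w') ∧
      Ideal.absNorm w.asIdeal = Ideal.absNorm v.asIdeal ∧
      Ideal.absNorm w'.asIdeal = Ideal.absNorm v.asIdeal := by
  classical
  have hmax : v.asIdeal.IsMaximal := v.isPrime.isMaximal v.ne_bot
  obtain ⟨σ, hσr, hσσ, -⟩ := h.conj
  let τ : 𝓞 F ≃+* 𝓞 F := RingOfIntegers.mapRingEquiv σ.toRingEquiv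
  have hτr : τ r = -r := by
    apply RingOfIntegers.ext
    exact hσr
  have hτL : ∀ x : 𝓞 L, τ (algebraMap (𝓞 L) (𝓞 F) x) = algebraMap (𝓞 L) (𝓞 F) x := by
    intro x
    apply RingOfIntegers.ext
    exact σ.commutes (x : L)
  -- the conjugate place
  have hconj : ∀ w : HeightOneSpectrum (𝓞 F), w.under (𝓞 L) = v → ∃ w' : HeightOneSpectrum (𝓞 F),
      w'.under (𝓞 L) = v ∧ ∀ x, x ∈ w'.asIdeal ↔ τ x ∈ w.asIdeal := by
    intro w hw
    have hb : w.asIdeal.comap τ.toRingHom ≠ ⊥ := by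
      intro hb
      apply w.ne_bot
      rw [eq_bot_iff]
      intro x hx
      have h3 : τ.symm x ∈ w.asIdeal.comap τ.toRingHom := by
        rw [Ideal.mem_comap]
        show τ (τ.symm x) ∈ _
        rwa [RingEquiv.apply_symm_apply]
      rw [hb, Ideal.mem_bot] at h3
      rw [Ideal.mem_bot, ← RingEquiv.apply_symm_apply τ x, h3, map_zero]
    have hp := w.isPrime
    refine ⟨⟨w.asIdeal.comap τ.toRingHom, Ideal.comap_isPrime _ _, hb⟩, ?_, fun x => Iff.rfl⟩
    apply HeightOneSpectrum.ext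
    ext x
    show τ (algebraMap (𝓞 L) (𝓞 F) x) ∈ w.asIdeal ↔ x ∈ v.asIdeal
    rw [hτL, mem_under v w hw]
  -- a place containing r - c
  have hex : ∃ w : HeightOneSpectrum (𝓞 F), w.under (𝓞 L) = v ∧
      r - algebraMap (𝓞 L) (𝓞 F) c ∈ w.asIdeal := by
    obtain ⟨w, hw⟩ := exists_above (F := F) v
    have hmul : (r - algebraMap (𝓞 L) (𝓞 F) c) * (r + algebraMap (𝓞 L) (𝓞 F) c) ∈ w.asIdeal := by
      have h3 : (r - algebraMap (𝓞 L) (𝓞 F) c) * (r + algebraMap (𝓞 L) (𝓞 F) c) =
          -algebraMap (𝓞 L) (𝓞 F) (c ^ 2 - d) := by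
        rw [map_sub, map_pow, ← h.sq]
        ring
      rw [h3]
      exact w.asIdeal.neg_mem ((mem_under v w hw _).2 hc)
    rcases w.isPrime.mem_or_mem hmul with h3 | h3
    · exact ⟨w, hw, h3⟩
    · obtain ⟨w', hw', hm⟩ := hconj w hw
      refine ⟨w', hw', ?_⟩
      rw [hm, map_sub, hτr, hτL, ← neg_mem_iff]
      convert h3 using 1
      ring
  obtain ⟨w, hw, hwr⟩ := hex
  obtain ⟨w', hw', hm⟩ := hconj w hw
  have hτ2 : τ (τ r) = r := by rw [hτr, map_neg, hτr, neg_neg]
  have hwr' : r + algebraMap (𝓞 L) (𝓞 F) c ∈ w'.asIdeal := by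
    rw [hm, map_add, hτr, hτL, ← neg_mem_iff]
    convert hwr using 1
    ring
  have hne : w ≠ w' := by
    rintro rfl
    have h3 : 2 * r ∈ w.asIdeal := by
      have := w.asIdeal.add_mem hwr hwr'
      convert this using 1
      ring
    rcases w.isPrime.mem_or_mem h3 with h4 | h4
    · apply h2
      rw [← mem_under v w hw, map_ofNat]
      exact h4
    · apply hd
      rw [← mem_under v w hw, ← h.sq]
      exact Ideal.pow_mem_of_mem _ h4 2 (by norm_num)
  have hsum := sum_two (F := F) v h.deg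
  have a1 := idx_pos v hw
  have a2 := idx_pos v hw'
  have hne' : w.asIdeal ≠ w'.asIdeal := fun e => hne (HeightOneSpectrum.ext e)
  have b1 := (mem_pof v w).2 hw
  have b2 := (mem_pof v w').2 hw'
  have hle2 : ∑ P ∈ ({w.asIdeal, w'.asIdeal} : Finset (Ideal (𝓞 F))),
      Ideal.ramificationIdx' v.asIdeal P * Ideal.inertiaDeg' v.asIdeal P ≤ 2 := by
    rw [← hsum]
    apply Finset.sum_le_sum_of_subset
    intro P hP
    rw [Finset.mem_insert, Finset.mem_singleton] at hP
    rcases hP with rfl | rfl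
    · exact b1
    · exact b2
  rw [Finset.sum_pair hne'] at hle2
  have c1 : Ideal.inertiaDeg' v.asIdeal w.asIdeal = 1 := by nlinarith
  have c2 : Ideal.inertiaDeg' v.asIdeal w'.asIdeal = 1 := by nlinarith
  refine ⟨w, w', hne, fun u => ⟨fun hu => ?_, ?_⟩, by rw [norm_eq v hw, c1, pow_one],
    by rw [norm_eq v hw', c2, pow_one]⟩
  · by_contra hcon
    push Not at hcon
    obtain ⟨k1, k2⟩ := hcon
    have a3 := idx_pos v hu
    have b3 := (mem_pof v u).2 hu
    have hle3 : ∑ P ∈ ({u.asIdeal, w.asIdeal, w'.asIdeal} : Finset (Ideal (𝓞 F))),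
        Ideal.ramificationIdx' v.asIdeal P * Ideal.inertiaDeg' v.asIdeal P ≤ 2 := by
      rw [← hsum]
      apply Finset.sum_le_sum_of_subset
      intro P hP
      rw [Finset.mem_insert, Finset.mem_insert, Finset.mem_singleton] at hP
      rcases hP with rfl | rfl | rfl
      · exact b3
      · exact b1
      · exact b2
    have hnm : u.asIdeal ∉ ({w.asIdeal, w'.asIdeal} : Finset (Ideal (𝓞 F))) := by
      rw [Finset.mem_insert, Finset.mem_singleton]
      rintro (e | e)
      · exact k1 (HeightOneSpectrum.ext e)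
      · exact k2 (HeightOneSpectrum.ext e)
    rw [Finset.sum_insert hnm, Finset.sum_pair hne'] at hle3
    nlinarith
  · rintro (rfl | rfl)
    · exact hw
    · exact hw'

end places

end

end Pool.Agent.Helper93.Bq
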