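import Pool.Agent.Helper93.Bq.Fac
import Pool.Agent.Helper93.Bq.Pts

/-!
# Multiquadratic extensions: degree, `L`-functions and points by induction
-/

set_option autoImplicit false
set_option linter.unusedSectionVars false

open NumberField IsDedekindDomain Module

namespace Pool.Agent.Helper93.Bq

section
variable {K : Type} [Field K] [NumberField K]

/-- the trivial extension -/
lemma HasL.iso {F : Type} [Field F] [NumberField F] [Algebra K F] {a b B : 𝓞 K} (h : HasL a b B)
    (hb : Function.Bijective (algebraMap (𝓞 K) (𝓞 F))) :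
    HasL (algebraMap (𝓞 K) (𝓞 F) a) (algebraMap (𝓞 K) (𝓞 F) b) (algebraMap (𝓞 K) (𝓞 F) B) := by
  obtain ⟨L, h1, h2, h3⟩ := h
  refine ⟨L, h1, h2, fun s hs => ?_⟩
  let π : Good (algebraMap (𝓞 K) (𝓞 F) B) → Good B := fun w => ⟨w.1.under (𝓞 K), w.2⟩
  have hπ : Function.Bijective π := by
    constructor
    · intro w w' e
      apply Subtype.ext
      apply HeightOneSpectrum.ext
      have e1 : w.1.under (𝓞 K) = w'.1.under (𝓞 K) := congrArg Subtype.val e
      ext x
      obtain ⟨y, rfl⟩ := hb.2 x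
      rw [mem_under _ w.1 e1, mem_under _ w'.1 rfl]
    · intro v
      obtain ⟨w, hw⟩ := exists_above (F := F) v.1
      refine ⟨⟨w, ?_⟩, Subtype.ext hw⟩
      rw [mem_under v.1 w hw]
      exact v.2
  have key : ∀ w : Good (algebraMap (𝓞 K) (𝓞 F) B),
      ef (algebraMap (𝓞 K) (𝓞 F) a) (algebraMap (𝓞 K) (𝓞 F) b) s w.1 = ef a b s (π w).1 := by
    intro w
    have hn : Ideal.absNorm w.1.asIdeal = Ideal.absNorm (w.1.under (𝓞 K)).asIdeal := by
      obtain ⟨f, hf, hfm⟩ := res_map (w.1.under (𝓞 K)) w.1 rfl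
      have hs : Function.Surjective f := by
        intro y
        obtain ⟨x, rfl⟩ := Ideal.Quotient.mk_surjective y
        obtain ⟨x, rfl⟩ := hb.2 x
        exact ⟨_, hfm x⟩
      rw [Ideal.absNorm_apply, Submodule.cardQuot_apply, Ideal.absNorm_apply,
        Submodule.cardQuot_apply]
      exact (Nat.card_congr (Equiv.ofBijective f ⟨hf, hs⟩)).symm
    unfold ef
    rw [ap_same a b (w.1.under (𝓞 K)) w.1 rfl hn, hn]
  have h4 := h3 s hs
  rw [← (Equiv.ofBijective π hπ).hasProd_iff] at h4
  refine h4.congr_fun ?_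
  intro w
  exact key w

/-- `F` is generated over `K` by square roots of the elements of `S` -/
structure Gen (S : Finset (𝓞 K)) (F : Type) [Field F] [NumberField F] [Algebra K F]
    (r : 𝓞 K → 𝓞 F) : Prop where
  sq : ∀ d ∈ S, r d ^ 2 = algebraMap (𝓞 K) (𝓞 F) d
  gen : ∀ E : IntermediateField K F, (∀ d ∈ S, (r d : F) ∈ E) → E = ⊤

/-- no product of different elements of `S` is a square -/
def Indep (S : Finset (𝓞 K)) : Prop :=
  ∀ T ⊆ S, T.Nonempty → ¬ IsSquare (((∏ d ∈ T, d : 𝓞 K)) : K)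

lemma quad_of (E : Type) [Field E] [NumberField E] (F : Type) [Field F] [NumberField F] [Algebra E F]
    (d : 𝓞 E) (r : 𝓞 F) (hsq : r ^ 2 = algebraMap (𝓞 E) (𝓞 F) d)
    (hns : ¬ IsSquare (d : E)) (hgen : ∀ M : IntermediateField E F, (r : F) ∈ M → M = ⊤) :
    Quad (L := E) (F := F) d r := by
  have hsq' : (r : F) ^ 2 = algebraMap E F (d : E) := by
    have h1 := congrArg (algebraMap (𝓞 F) F) hsq
    rw [map_pow] at h1
    rw [h1]
    rfl
  have hn : ∀ x : E, algebraMap E F x ≠ (r : F) := by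
    intro x hx
    apply hns
    refine ⟨x, (algebraMap E F).injective ?_⟩
    rw [← hsq', ← hx, map_mul, sq]
  refine ⟨?_, hsq, hn⟩
  have hint : IsIntegral E (r : F) := Algebra.IsIntegral.isIntegral _
  have htop : IntermediateField.adjoin E {(r : F)} = ⊤ :=
    hgen _ (IntermediateField.mem_adjoin_simple_self E _)
  have h1 := IntermediateField.adjoin.finrank hint
  rw [htop, IntermediateField.finrank_top'] at h1
  rw [h1]
  apply le_antisymm
  · have h2 : minpoly E (r : F) ∣ Polynomial.X ^ 2 - Polynomial.C (d : E) := by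
      apply minpoly.dvd
      rw [map_sub, map_pow, Polynomial.aeval_X, Polynomial.aeval_C, hsq', sub_self]
    have h3 : (Polynomial.X ^ 2 - Polynomial.C (d : E)).natDegree = 2 :=
      Polynomial.natDegree_X_pow_sub_C
    rw [← h3]
    apply Polynomial.natDegree_le_of_dvd h2
    intro h4
    rw [h4, Polynomial.natDegree_zero] at h3
    omega
  · rw [minpoly.two_le_natDegree_iff hint]
    rintro ⟨x, hx⟩
    exact hn x hx

variable {S : Finset (𝓞 K)}

/-- the lower field -/
lemma lower [DecidableEq (𝓞 K)] {d : 𝓞 K} {F : Type} [Field F] [NumberField F] [Algebra K F]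
    {r : 𝓞 K → 𝓞 F} (h : Gen (insert d S) F r) :
    ∃ (E : IntermediateField K F) (r' : 𝓞 K → 𝓞 E), Gen S E r' ∧
      ∀ M : IntermediateField E F, (r d : F) ∈ M → M = ⊤ := by
  classical
  let E : IntermediateField K F := IntermediateField.adjoin K {x | ∃ d ∈ S, x = (r d : F)}
  have hE : ∀ d ∈ S, (r d : F) ∈ E := fun d hd => IntermediateField.subset_adjoin _ _ ⟨d, hd, rfl⟩
  have hex : ∀ x : 𝓞 K, ∃ y : 𝓞 E, x ∈ S → ((y : E) : F) = (r x : F) := by
    intro x
    by_cases hx : x ∈ S
    · have hint : IsIntegral ℤ (⟨(r x : F), hE x hx⟩ : E) := by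
        rw [← isIntegral_algebraMap_iff (algebraMap E F).injective (B := F)]
        exact (r x).2
      exact ⟨⟨⟨(r x : F), hE x hx⟩, hint⟩, fun _ => rfl⟩
    · exact ⟨0, fun h => absurd h hx⟩
  choose r' hr' using hex
  refine ⟨E, r', ⟨fun x hx => ?_, fun M hM => ?_⟩, fun M hM => ?_⟩
  · apply RingOfIntegers.ext
    apply (algebraMap E F).injective
    have h1 := congrArg (algebraMap (𝓞 F) F) (h.sq x (Finset.mem_insert_of_mem hx))
    rw [map_pow] at h1
    have h2 : ((r' x ^ 2 : 𝓞 E) : E) = (r' x : E) ^ 2 := rfl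
    rw [h2, map_pow]
    have h3 : algebraMap E F (r' x : E) = (r x : F) := hr' x hx
    rw [h3]
    exact h1
  · -- `M = ⊤`
    have h1 : IntermediateField.adjoin K {x | ∃ d ∈ S, x = (r d : F)} ≤ IntermediateField.lift M := by
      rw [IntermediateField.adjoin_le_iff]
      rintro _ ⟨x, hx, rfl⟩
      rw [← hr' x hx]
      exact (IntermediateField.mem_lift _).2 (hM x hx)
    rw [eq_top_iff]
    intro x _
    have h2 : (x : F) ∈ IntermediateField.lift M := h1 x.2
    exact (IntermediateField.mem_lift _).1 h2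
  · have h1 : M.restrictScalars K = ⊤ := by
      apply h.gen
      intro x hx
      rcases Finset.mem_insert.1 hx with rfl | hx
      · exact hM
      · have h2 : algebraMap E F ⟨(r x : F), hE x hx⟩ ∈ M := M.algebraMap_mem _
        exact h2
    rw [eq_top_iff]
    intro x _
    have h2 : x ∈ M.restrictScalars K := by rw [h1]; trivial
    exact h2

/-- **Multiquadratic extensions.** -/
theorem tower (B : 𝓞 K) (hB2 : ∀ v : HeightOneSpectrum (𝓞 K), B ∉ v.asIdeal → (2 : 𝓞 K) ∉ v.asIdeal) :
    ∀ S : Finset (𝓞 K), (∀ d ∈ S, ∀ v : HeightOneSpectrum (𝓞 K), B ∉ v.asIdeal → d ∉ v.asIdeal) →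
      Indep S → ∀ (F : Type) [Field F] [NumberField F] [Algebra K F] (r : 𝓞 K → 𝓞 F), Gen S F r →
      (∀ c : K, (∀ T ⊆ S, ¬ IsSquare (c * ((∏ d ∈ T, d : 𝓞 K) : K))) →
        ¬ IsSquare (algebraMap K F c)) ∧
      finrank K F = 2 ^ S.card ∧
      (∀ a b : 𝓞 K, (∀ v : HeightOneSpectrum (𝓞 K), B ∉ v.asIdeal → 4 * a ^ 3 + 27 * b ^ 2 ∉ v.asIdeal) →
        (∀ T ⊆ S, HasL ((∏ d ∈ T, d) ^ 2 * a) ((∏ d ∈ T, d) ^ 3 * b) B) →
        HasL (algebraMap (𝓞 K) (𝓞 F) a) (algebraMap (𝓞 K) (𝓞 F) b) (algebraMap (𝓞 K) (𝓞 F) B)) ∧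
      (∀ a b : K, 4 * a ^ 3 + 27 * b ^ 2 ≠ 0 →
        (∀ T ⊆ S, (Sol K (((∏ d ∈ T, d : 𝓞 K) : K) ^ 2 * a) (((∏ d ∈ T, d : 𝓞 K) : K) ^ 3 * b)).Finite) →
        (Sol F (algebraMap K F a) (algebraMap K F b)).Finite) := by
  classical
  intro S
  induction S using Finset.induction_on with
  | empty =>
    intro _ _ F _ _ _ r hG
    have hbot : (⊥ : IntermediateField K F) = ⊤ := hG.gen ⊥ (fun d hd => absurd hd (Finset.notMem_empty d))
    have hsurj : Function.Surjective (algebraMap K F) := by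
      intro x
      have h1 : x ∈ (⊥ : IntermediateField K F) := by rw [hbot]; trivial
      exact IntermediateField.mem_bot.1 h1
    have hdeg : finrank K F = 1 := by
      have h1 := IntermediateField.finrank_bot (F := K) (E := F)
      rw [hbot, IntermediateField.finrank_top'] at h1
      exact h1
    refine ⟨fun c hc => ?_, by rw [hdeg]; simp, fun a b hab hL => ?_, fun a b hab hS => ?_⟩
    · rintro ⟨y, hy⟩
      obtain ⟨x, rfl⟩ := hsurj y
      apply hc ∅ (Finset.Subset.refl _)
      rw [← map_mul] at hy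
      have e1 : (((∏ d ∈ (∅ : Finset (𝓞 K)), d : 𝓞 K)) : K) = 1 := by
        rw [Finset.prod_empty]; exact map_one _
      rw [e1, mul_one]
      exact ⟨x, (algebraMap K F).injective hy⟩
    · have h1 := hL ∅ (Finset.Subset.refl _)
      rw [Finset.prod_empty, one_pow, one_pow, one_mul, one_mul] at h1
      refine h1.iso ?_
      refine ⟨fun x y hxy => ?_, fun x => ?_⟩
      · apply RingOfIntegers.ext
        apply (algebraMap K F).injective
        exact congrArg (algebraMap (𝓞 F) F) hxy
      · obtain ⟨y, hy⟩ := hsurj (x : F)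
        have hint : IsIntegral ℤ y := by
          rw [← isIntegral_algebraMap_iff (algebraMap K F).injective (B := F), hy]
          exact x.2
        refine ⟨⟨y, hint⟩, ?_⟩
        apply RingOfIntegers.ext
        exact hy
    · have h1 := hS ∅ (Finset.Subset.refl _)
      have e1 : (((∏ d ∈ (∅ : Finset (𝓞 K)), d : 𝓞 K)) : K) = 1 := by
        rw [Finset.prod_empty]; exact map_one _
      rw [e1, one_pow, one_pow, one_mul, one_mul] at h1
      refine (h1.image (fun q : K × K => (algebraMap K F q.1, algebraMap K F q.2))).subset ?_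
      rintro ⟨x, y⟩ hxy
      obtain ⟨x0, rfl⟩ := hsurj x
      obtain ⟨y0, rfl⟩ := hsurj y
      refine ⟨(x0, y0), ?_, rfl⟩
      show y0 ^ 2 = x0 ^ 3 + a * x0 + b
      apply (algebraMap K F).injective
      simp only [map_add, map_mul, map_pow]
      exact hxy
  | insert d S hd ih =>
    intro hBd hI F _ _ _ r hG
    obtain ⟨E, r', hG', hM⟩ := lower hG
    have hI' : Indep S := fun T hT hne => hI T (hT.trans (Finset.subset_insert _ _)) hne
    obtain ⟨i1, i2, i3, i4⟩ := ih (fun x hx => hBd x (Finset.mem_insert_of_mem hx)) hI' E r' hG'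
    have hprod : ∀ T ⊆ S, ∏ x ∈ insert d T, x = d * ∏ x ∈ T, x := fun T hT =>
      Finset.prod_insert fun h => hd (hT h)
    have hprod' : ∀ T ⊆ S, ((∏ x ∈ insert d T, x : 𝓞 K) : K) = (d : K) * ((∏ x ∈ T, x : 𝓞 K) : K) :=
      fun T hT => by rw [hprod T hT]; rfl
    have hns : ¬ IsSquare ((algebraMap (𝓞 K) (𝓞 E) d : 𝓞 E) : E) := by
      have h1 := i1 (d : K) (fun T hT => by
        have h2 := hI (insert d T) (Finset.insert_subset_insert _ hT) (Finset.insert_nonempty _ _)
        rw [hprod' T hT] at h2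
        exact h2)
      exact h1
    have hsq : r d ^ 2 = algebraMap (𝓞 E) (𝓞 F) (algebraMap (𝓞 K) (𝓞 E) d) := by
      rw [hG.sq d (Finset.mem_insert_self _ _), IsScalarTower.algebraMap_apply (𝓞 K) (𝓞 E) (𝓞 F)]
    have hQ : Quad (L := E) (F := F) (algebraMap (𝓞 K) (𝓞 E) d) (r d) :=
      quad_of E F _ _ hsq hns hM
    refine ⟨fun c hc => ?_, ?_, fun a b hab hL => ?_, fun a b hab hS => ?_⟩
    · rintro ⟨z, hz⟩
      obtain ⟨x, y, rfl⟩ := hQ.repr z
      have hr2 := hQ.sq'
      have e1 : algebraMap K F c = algebraMap E F (algebraMap K E c) :=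
        IsScalarTower.algebraMap_apply K E F c
      -- compare
      have h1 : algebraMap E F (algebraMap K E c - x ^ 2 - y ^ 2 * (algebraMap (𝓞 K) (𝓞 E) d : 𝓞 E)) =
          algebraMap E F (2 * x * y) * (r d : F) := by
        simp only [map_sub, map_mul, map_pow, map_ofNat]
        rw [← e1, hz, ← hr2]
        ring
      by_cases hxy : 2 * x * y = 0
      · rw [hxy, map_zero, zero_mul, map_eq_zero_iff _ (algebraMap E F).injective] at h1
        rcases mul_eq_zero.1 hxy with hx | hy
        · have hx0 : x = 0 := (mul_eq_zero.1 hx).resolve_left two_ne_zero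
          subst hx0
          refine i1 (c * d) (fun T hT => ?_) ?_
          · have h2 := hc (insert d T) (Finset.insert_subset_insert _ hT)
            rw [hprod' T hT, ← mul_assoc] at h2
            exact h2
          · refine ⟨y * ((algebraMap (𝓞 K) (𝓞 E) d : 𝓞 E) : E), ?_⟩
            have e2 : algebraMap K E (d : K) = ((algebraMap (𝓞 K) (𝓞 E) d : 𝓞 E) : E) := rfl
            rw [map_mul, e2]
            linear_combination ((algebraMap (𝓞 K) (𝓞 E) d : 𝓞 E) : E) * h1
        · subst hy
          refine i1 c (fun T hT => hc T (hT.trans (Finset.subset_insert _ _))) ⟨x, ?_⟩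
          linear_combination h1
      · exfalso
        apply hQ.ns ((algebraMap K E c - x ^ 2 - y ^ 2 * (algebraMap (𝓞 K) (𝓞 E) d : 𝓞 E)) / (2 * x * y))
        rw [map_div₀, h1, mul_comm, mul_div_cancel_right₀]
        rwa [Ne, map_eq_zero_iff _ (algebraMap E F).injective]
    · rw [← Module.finrank_mul_finrank K E F, i2, hQ.deg, Finset.card_insert_of_notMem hd, pow_succ]
    · -- the `L`-function
      have hBE : ∀ v : HeightOneSpectrum (𝓞 E), algebraMap (𝓞 K) (𝓞 E) B ∉ v.asIdeal →
          (2 : 𝓞 E) ∉ v.asIdeal ∧ algebraMap (𝓞 K) (𝓞 E) d ∉ v.asIdeal ∧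
          4 * (algebraMap (𝓞 K) (𝓞 E) a) ^ 3 + 27 * (algebraMap (𝓞 K) (𝓞 E) b) ^ 2 ∉ v.asIdeal := by
        intro v hv
        have hm : ∀ x : 𝓞 K, algebraMap (𝓞 K) (𝓞 E) x ∈ v.asIdeal ↔ x ∈ (v.under (𝓞 K)).asIdeal :=
          mem_under _ v rfl
        rw [hm] at hv
        refine ⟨?_, ?_, ?_⟩
        · have h2 := hB2 _ hv
          rw [← hm, map_ofNat] at h2
          exact h2
        · rw [hm]
          exact hBd d (Finset.mem_insert_self _ _) _ hv
        · have h2 := hab _ hv
          rw [← hm] at h2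
          simpa only [map_add, map_mul, map_pow, map_ofNat] using h2
      have hL1 : HasL (algebraMap (𝓞 K) (𝓞 E) a) (algebraMap (𝓞 K) (𝓞 E) b)
          (algebraMap (𝓞 K) (𝓞 E) B) :=
        i3 a b hab fun T hT => hL T (hT.trans (Finset.subset_insert _ _))
      have hL2 : HasL (algebraMap (𝓞 K) (𝓞 E) (d ^ 2 * a)) (algebraMap (𝓞 K) (𝓞 E) (d ^ 3 * b))
          (algebraMap (𝓞 K) (𝓞 E) B) := by
        refine i3 _ _ (fun v hv => ?_) fun T hT => ?_
        · have e : 4 * (d ^ 2 * a) ^ 3 + 27 * (d ^ 3 * b) ^ 2 = d ^ 6 * (4 * a ^ 3 + 27 * b ^ 2) := by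
            ring
          rw [e]
          intro h2
          rcases v.isPrime.mem_or_mem h2 with h3 | h3
          · exact hBd d (Finset.mem_insert_self _ _) v hv (v.isPrime.mem_of_pow_mem _ h3)
          · exact hab v hv h3
        · have h2 := hL (insert d T) (Finset.insert_subset_insert _ hT)
          rw [hprod T hT] at h2
          have e1 : (d * ∏ x ∈ T, x) ^ 2 * a = (∏ x ∈ T, x) ^ 2 * (d ^ 2 * a) := by ring
          have e2 : (d * ∏ x ∈ T, x) ^ 3 * b = (∏ x ∈ T, x) ^ 3 * (d ^ 3 * b) := by ring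
          rw [e1, e2] at h2
          exact h2
      have h3 := HasL.quad hQ hBE hL1 (by simpa only [map_mul, map_pow] using hL2)
      simp only [← IsScalarTower.algebraMap_apply] at h3
      exact h3
    · have hS1 : (Sol E (algebraMap K E a) (algebraMap K E b)).Finite :=
        i4 a b hab fun T hT => hS T (hT.trans (Finset.subset_insert _ _))
      have hd0 : (d : K) ≠ 0 := by
        intro h0
        apply hI {d} (by simp) (Finset.singleton_nonempty d)
        rw [Finset.prod_singleton, h0]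
        exact ⟨0, by simp⟩
      have hS2 : (Sol E (algebraMap K E ((d : K) ^ 2 * a)) (algebraMap K E ((d : K) ^ 3 * b))).Finite := by
        refine i4 _ _ ?_ fun T hT => ?_
        · have e : 4 * ((d : K) ^ 2 * a) ^ 3 + 27 * ((d : K) ^ 3 * b) ^ 2 =
              (d : K) ^ 6 * (4 * a ^ 3 + 27 * b ^ 2) := by ring
          rw [e]
          exact mul_ne_zero (pow_ne_zero _ hd0) hab
        · have h2 := hS (insert d T) (Finset.insert_subset_insert _ hT)
          rw [hprod' T hT] at h2
          have e1 : ((d : K) * ((∏ x ∈ T, x : 𝓞 K) : K)) ^ 2 * a =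
            ((∏ x ∈ T, x : 𝓞 K) : K) ^ 2 * ((d : K) ^ 2 * a) := by ring
          have e2 : ((d : K) * ((∏ x ∈ T, x : 𝓞 K) : K)) ^ 3 * b =
            ((∏ x ∈ T, x : 𝓞 K) : K) ^ 3 * ((d : K) ^ 3 * b) := by ring
          rw [e1, e2] at h2
          exact h2
      have hne : 4 * (algebraMap K E a) ^ 3 + 27 * (algebraMap K E b) ^ 2 ≠ 0 := by
        intro h0
        apply hab
        apply (algebraMap K E).injective
        rw [map_zero, ← h0]
        simp only [map_add, map_mul, map_pow, map_ofNat]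
      have h3 := (finite_quad hQ hS1 (by
        have h4 := hS2
        simp only [map_mul, map_pow] at h4
        exact h4)).resolve_right hne
      simp only [← IsScalarTower.algebraMap_apply] at h3
      exact h3

end

end Pool.Agent.Helper93.Bq
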